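import Mathlib

open Filter Topology Set

namespace Pool.Agent.X83.HZ

/-- Countably many functions have a strict upper bound at infinity. -/
theorem exists_upper (S : Set (ℤ → ℝ)) (hS : S.Countable) :
    ∃ b : ℤ → ℝ, ∀ a ∈ S, ∀ᶠ k in atTop, a k < b k := by
  rcases S.eq_empty_or_nonempty with h | h
  · exact ⟨0, fun a ha => by rw [h] at ha; exact absurd ha (notMem_empty a)⟩
  · obtain ⟨a, ha⟩ := hS.exists_eq_range h
    refine ⟨fun k => 1 + ∑ i ∈ Finset.range (k.toNat + 1), |a i k|, ?_⟩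
    rintro f hf
    rw [ha] at hf
    obtain ⟨i, rfl⟩ := hf
    filter_upwards [eventually_ge_atTop (i : ℤ)] with k hk
    have h1 : |a i k| ≤ ∑ i ∈ Finset.range (k.toNat + 1), |a i k| :=
      Finset.single_le_sum (f := fun i => |a i k|) (fun _ _ => abs_nonneg _)
        (Finset.mem_range.2 (by omega))
    have h2 := le_abs_self (a i k)
    linarith

variable {W : Type} [LinearOrder W] [WellFoundedLT W]

/-- A chain of functions, increasing at infinity, indexed by a well-ordered set with countable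
initial segments. -/
theorem exists_chain (hW : ∀ a : W, (Iio a).Countable) :
    ∃ g : W → ℤ → ℝ, ∀ ξ η, ξ < η → ∀ᶠ k in atTop, g ξ k < g η k := by
  have hc : ∀ (η : W) (f : ∀ ξ, ξ < η → (ℤ → ℝ)),
      (range fun ξ : Iio η => f ξ.1 ξ.2).Countable := by
    intro η f
    haveI := (hW η).to_subtype
    exact countable_range _
  let g : W → ℤ → ℝ := WellFounded.fix (wellFounded_lt (α := W))
    (fun η f => (exists_upper _ (hc η f)).choose)
  refine ⟨g, fun ξ η h => ?_⟩
  have h1 : g η = (exists_upper _ (hc η fun ξ _ => g ξ)).choose :=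
    WellFounded.fix_eq (wellFounded_lt (α := W)) _ η
  rw [h1]
  exact (exists_upper _ (hc η fun ξ _ => g ξ)).choose_spec _ ⟨⟨ξ, h⟩, rfl⟩

/-- A bounded chain. -/
theorem exists_bdd_chain (hW : ∀ a : W, (Iio a).Countable) :
    ∃ g : W → ℤ → ℝ, (∀ ξ η, ξ < η → ∀ᶠ k in atTop, g ξ k < g η k) ∧ ∀ ξ k, |g ξ k| ≤ 1 := by
  obtain ⟨g, hg⟩ := exists_chain hW
  refine ⟨fun ξ k => Real.arctan (g ξ k) / 2, fun ξ η h => ?_, fun ξ k => ?_⟩
  · filter_upwards [hg ξ η h] with k hk
    have := Real.arctan_strictMono hk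
    linarith
  · have h1 := Real.arctan_lt_pi_div_two (g ξ k)
    have h2 := Real.neg_pi_div_two_lt_arctan (g ξ k)
    have h3 := Real.pi_le_four
    rw [abs_le]
    constructor <;> linarith

/-- Positive summable weights below `α`. -/
theorem exists_weights (hW : ∀ a : W, (Iio a).Countable) (α : W) :
    ∃ w : W → ℝ, (∀ ξ, 0 ≤ w ξ) ∧ (∀ ξ, ξ < α → 0 < w ξ) ∧ Summable w := by
  classical
  haveI := (hW α).to_subtype
  haveI := Encodable.ofCountable (Iio α)
  obtain ⟨f, hf, c, hc, _⟩ := posSumOfEncodable one_pos (Iio α)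
  let w : W → ℝ := fun ξ => if h : ξ ∈ Iio α then f ⟨ξ, h⟩ else 0
  have hw1 : ∀ ξ (h : ξ ∈ Iio α), w ξ = f ⟨ξ, h⟩ := fun ξ h => dif_pos h
  have hw2 : ∀ ξ, ξ ∉ Iio α → w ξ = 0 := fun ξ h => dif_neg h
  refine ⟨w, fun ξ => ?_, fun ξ h => ?_, ?_⟩
  · by_cases h : ξ ∈ Iio α
    · rw [hw1 ξ h]; exact (hf _).le
    · rw [hw2 ξ h]
  · rw [hw1 ξ h]; exact hf _
  · rw [← (Subtype.val_injective (p := fun x => x ∈ Iio α)).summable_iff]
    · have e : w ∘ ((↑) : Iio α → W) = f := by
        ext ξ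
        exact hw1 ξ.1 ξ.2
      rw [e]; exact hc.summable
    · intro ξ hξ
      apply hw2
      intro h
      exact hξ ⟨⟨ξ, h⟩, rfl⟩

/-- The total weight below `ξ`. -/
noncomputable def SW (w : W → ℝ) (ξ : W) : ℝ := ∑' η, (Iio ξ).indicator w η

section SW

variable {w : W → ℝ} (hw : ∀ ξ, 0 ≤ w ξ) (hs : Summable w)

include hw in
theorem SW_nonneg (ξ : W) : 0 ≤ SW w ξ :=
  tsum_nonneg fun η => indicator_nonneg (fun _ _ => hw _) η

include hw hs in
theorem SW_add_le {ξ η : W} (h : ξ < η) : SW w ξ + w ξ ≤ SW w η := by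
  have h1 : SW w ξ + w ξ = ∑' ζ, ((Iio ξ).indicator w ζ + ({ξ} : Set W).indicator w ζ) := by
    rw [(hs.indicator _).tsum_add (hs.indicator _)]
    congr 1
    rw [tsum_eq_single ξ]
    · rw [indicator_of_mem (mem_singleton ξ)]
    · intro ζ hζ
      exact indicator_of_notMem (by simpa using hζ) _
  rw [h1]
  unfold SW
  apply ((hs.indicator _).add (hs.indicator _)).tsum_le_tsum _ (hs.indicator _)
  intro ζ
  rcases lt_trichotomy ζ ξ with h2 | h2 | h2
  · rw [indicator_of_mem (show ζ ∈ Iio ξ from h2), indicator_of_notMem (by simpa using h2.ne),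
      indicator_of_mem (show ζ ∈ Iio η from h2.trans h), add_zero]
  · subst h2
    rw [indicator_of_notMem (by simp), indicator_of_mem (mem_singleton ζ),
      indicator_of_mem (show ζ ∈ Iio η from h), zero_add]
  · rw [indicator_of_notMem (by simpa using h2.le), indicator_of_notMem (by simpa using h2.ne'),
      add_zero]
    exact indicator_nonneg (fun _ _ => hw _) ζ

include hw hs in
theorem exists_below {ξ : W} {y : ℝ} (hy0 : 0 ≤ y) (hy : y < SW w ξ) :
    ∃ m, m < ξ ∧ y < SW w m + w m := by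
  have h1 := (hs.indicator (Iio ξ)).hasSum.eventually_const_lt hy
  obtain ⟨T, hT⟩ := h1.exists
  set T' := T.filter (· < ξ) with hT'
  have h2 : ∑ ζ ∈ T, (Iio ξ).indicator w ζ = ∑ ζ ∈ T', w ζ := by
    rw [hT', Finset.sum_filter]
    apply Finset.sum_congr rfl
    intro ζ _
    rw [indicator_apply]
    rfl
  rw [h2] at hT
  have hne : T'.Nonempty := by
    by_contra h
    rw [Finset.not_nonempty_iff_eq_empty] at h
    rw [h, Finset.sum_empty] at hT
    linarith
  set m := T'.max' hne with hm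
  have hmT := T'.max'_mem hne
  refine ⟨m, (Finset.mem_filter.1 hmT).2, lt_of_lt_of_le hT ?_⟩
  rw [← Finset.add_sum_erase _ _ hmT, add_comm]
  have h3 : ∑ ζ ∈ T'.erase m, w ζ ≤ SW w m := by
    have h4 : ∑ ζ ∈ T'.erase m, w ζ = ∑ ζ ∈ T'.erase m, (Iio m).indicator w ζ := by
      apply Finset.sum_congr rfl
      intro ζ hζ
      rw [Finset.mem_erase] at hζ
      rw [indicator_of_mem]
      exact lt_of_le_of_ne (T'.le_max' ζ hζ.2) hζ.1
    rw [h4]
    exact (hs.indicator _).sum_le_tsum _ fun ζ _ => indicator_nonneg (fun _ _ => hw _) ζ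
  linarith

include hw hs in
theorem exists_level {α : W} {y : ℝ} (hy0 : 0 ≤ y) (hy : y < SW w α) :
    ∃ m, m < α ∧ SW w m ≤ y ∧ y < SW w m + w m := by
  obtain ⟨m0, hm0, hm0'⟩ := exists_below hw hs hy0 hy
  let A : Set W := {m | y < SW w m + w m}
  have hA : A.Nonempty := ⟨m0, hm0'⟩
  set m := (wellFounded_lt (α := W)).min A hA with hm
  have hmA : m ∈ A := WellFounded.min_mem _ _ _
  have hmin : ∀ m' ∈ A, ¬ m' < m := fun m' hm' => WellFounded.not_lt_min _ _ hm'
  refine ⟨m, lt_of_le_of_lt (not_lt.1 (hmin m0 hm0')) hm0, ?_, hmA⟩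
  by_contra hcon
  push Not at hcon
  obtain ⟨m', h1, h2⟩ := exists_below hw hs hy0 hcon
  exact hmin m' h2 h1

end SW

end Pool.Agent.X83.HZ
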