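import Pool.Agent.X83.HZ.Ray

open Filter Topology Set

namespace Pool.Agent.X83.HZ

open Pool.Agent.X83.NH

section gen

variable {W : Type} [LinearOrder W] [WellFoundedLT W] [NoMaxOrder W] [OrderBot W] [SuccOrder W]

variable (W) in
/-- The origin of the ray. -/
def org : LR W := pt ⊥ 0 le_rfl one_pos

theorem locReal_Ioi (hW : ∀ a : W, (Iio a).Countable) : LocReal (Ioi (org W)) := by
  rintro ⟨s, hs⟩
  obtain ⟨a, ha0, ha⟩ := exists_between (show org W < s from hs)
  obtain ⟨b, hb⟩ := exists_gt s
  obtain ⟨e, he, hr⟩ := exists_param hW a b (ha.trans hb)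
  have hmem : ∀ v, e v ∈ Ioo a b := fun v => by rw [← hr]; exact ⟨v, rfl⟩
  refine ⟨fun v => ⟨e v, ha0.trans (hmem v).1⟩, ⟨a, ha0⟩, ⟨b, (show org W < s from hs).trans hb⟩,
    fun v v' h => he h, ?_, ha, hb⟩
  ext ⟨x, hx⟩
  constructor
  · rintro ⟨v, hv⟩
    have h : e v = x := congrArg Subtype.val hv
    subst h
    exact hmem v
  · intro h
    have h' : x ∈ Ioo a b := h
    rw [← hr] at h'
    obtain ⟨v, hv⟩ := h'
    exact ⟨v, Subtype.ext hv⟩

/-- The reference functions on the ray. -/
theorem exists_dat (hW : ∀ a : W, (Iio a).Countable) : Nonempty (Dat (Ioi (org W))) := by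
  obtain ⟨g, hg, hb⟩ := exists_bdd_chain hW
  refine ⟨⟨fun s k => (1 - sn s.1) * g (fs s.1) k + sn s.1 * g (Order.succ (fs s.1)) k, ?_, ?_⟩⟩
  · rintro ⟨s, hs⟩ ⟨s', hs'⟩ hss
    have hlt : s < s' := hss
    dsimp only
    have a0 := sn_nonneg s
    have a1 := sn_lt s
    have b0 := sn_nonneg s'
    have b1 := sn_lt s'
    rw [LR_lt] at hlt
    rcases hlt with h | ⟨h, h2⟩
    · have e1 := hg _ _ (Order.lt_succ (fs s))
      have e2 := hg _ _ (Order.lt_succ (fs s'))
      have e3 : ∀ᶠ k in atTop, g (Order.succ (fs s)) k ≤ g (fs s') k := by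
        rcases (Order.succ_le_of_lt h).eq_or_lt with h3 | h3
        · rw [h3]; exact Eventually.of_forall fun _ => le_rfl
        · exact (hg _ _ h3).mono fun _ => le_of_lt
      filter_upwards [e1, e2, e3] with k k1 k2 k3
      have h4 : (1 - sn s) * g (fs s) k + sn s * g (Order.succ (fs s)) k
          < g (Order.succ (fs s)) k := by nlinarith
      have h5 : g (fs s') k ≤ (1 - sn s') * g (fs s') k + sn s' * g (Order.succ (fs s')) k := by
        nlinarith
      linarith
    · have e2 := hg _ _ (Order.lt_succ (fs s'))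
      rw [h]
      filter_upwards [e2] with k k2
      nlinarith
  · rintro ⟨s, hs⟩ k
    dsimp only
    have a0 := sn_nonneg s
    have a1 := sn_lt s
    have h1 := abs_le.1 (hb (fs s) k)
    have h2 := abs_le.1 (hb (Order.succ (fs s)) k)
    rw [abs_le]
    constructor <;> nlinarith

/-- The ray is a subspace of the ray without its origin. -/
theorem exists_shift : ∃ f : LR W → Ioi (org W), IsEmbedding f := by
  classical
  let sh : LR W → LR W := fun s => if fs s = ⊥ then
    pt ⊥ ((1 + sn s) / 2) (by have := sn_nonneg s; linarith) (by have := sn_lt s; linarith) else s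
  have h1 : ∀ s, fs s = ⊥ → sh s = pt ⊥ ((1 + sn s) / 2) (by have := sn_nonneg s; linarith)
      (by have := sn_lt s; linarith) := fun s h => if_pos h
  have h2 : ∀ s, fs s ≠ ⊥ → sh s = s := fun s h => if_neg h
  have hfs : ∀ s, fs (sh s) = fs s := by
    intro s
    by_cases h : fs s = ⊥
    · rw [h1 s h, h]; rfl
    · rw [h2 s h]
  have hmem : ∀ s, org W < sh s := by
    intro s
    rw [LR_lt]
    by_cases h : fs s = ⊥
    · right
      refine ⟨by rw [hfs, h]; rfl, ?_⟩
      rw [h1 s h]
      show (0 : ℝ) < (1 + sn s) / 2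
      have := sn_nonneg s
      linarith
    · left
      rw [hfs]
      exact bot_lt_iff_ne_bot.2 h
  have hmono : StrictMono sh := by
    intro s s' h
    have h0 := h
    rw [LR_lt] at h
    rw [LR_lt, hfs, hfs]
    rcases h with h | ⟨h, h'⟩
    · exact Or.inl h
    · right
      refine ⟨h, ?_⟩
      by_cases hb : fs s = ⊥
      · rw [h1 s hb, h1 s' (by rw [← h, hb])]
        show (1 + sn s) / 2 < (1 + sn s') / 2
        linarith
      · rw [h2 s hb, h2 s' (by rw [← h]; exact hb)]
        exact h'
  have hrange : ∀ s, (fs s = ⊥ → 1 / 2 ≤ sn s) → s ∈ range sh := by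
    intro s h
    by_cases hb : fs s = ⊥
    · have h3 := h hb
      have h4 := sn_lt s
      refine ⟨pt ⊥ (2 * sn s - 1) (by linarith) (by linarith), ?_⟩
      rw [h1 _ rfl]
      apply LR_ext
      · exact hb.symm
      · show (1 + (2 * sn s - 1)) / 2 = sn s
        ring
    · exact ⟨s, h2 s hb⟩
  let f : LR W → Ioi (org W) := fun s => ⟨sh s, hmem s⟩
  have hf : StrictMono f := fun s s' h => hmono h
  refine ⟨f, hf.isEmbedding_of_ordConnected ⟨?_⟩⟩
  rintro _ ⟨s, rfl⟩ _ ⟨s', rfl⟩ ⟨x, hx⟩ ⟨hx1, hx2⟩
  have hx1' : sh s ≤ x := hx1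
  have : x ∈ range sh := by
    apply hrange
    intro hb
    have h3 : fs s = ⊥ := by
      have := fs_mono hx1'
      rw [hb, hfs] at this
      exact le_bot_iff.1 this
    rw [h1 s h3] at hx1'
    rcases hx1'.eq_or_lt with h4 | h4
    · rw [← h4]
      show (1 : ℝ) / 2 ≤ (1 + sn s) / 2
      have := sn_nonneg s
      linarith
    · rw [LR_lt] at h4
      rcases h4 with h4 | h4
      · rw [hb] at h4
        exact absurd h4 (not_lt_bot)
      · have h5 : (1 + sn s) / 2 < sn x := h4.2
        have := sn_nonneg s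
        linarith
  obtain ⟨y, hy⟩ := this
  exact ⟨y, Subtype.ext hy⟩

variable [TopologicalSpace W] [OrderTopology W]

omit [WellFoundedLT W] [OrderBot W] in
/-- The well-ordered set is a subspace of the ray. -/
theorem exists_sub : ∃ f : W → LR W, IsEmbedding f := by
  let f : W → LR W := fun ξ => pt ξ 0 le_rfl one_pos
  have hlt : ∀ ξ η, f ξ < f η ↔ ξ < η := by
    intro ξ η
    rw [LR_lt]
    constructor
    · rintro (h | ⟨_, h⟩)
      · exact h
      · exact absurd h (lt_irrefl _)
    · exact fun h => Or.inl h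
  have hinj : Function.Injective f := fun ξ η h => congrArg fs h
  have hcont : Continuous f := by
    have hT : (inferInstance : TopologicalSpace (LR W)) =
        TopologicalSpace.generateFrom {s | ∃ a, s = Ioi a ∨ s = Iio a} :=
      OrderTopology.topology_eq_generate_intervals
    have : Continuous[_, TopologicalSpace.generateFrom {s | ∃ a : LR W, s = Ioi a ∨ s = Iio a}] f := by
      rw [continuous_generateFrom_iff]
      rintro U ⟨a, rfl | rfl⟩
      · have e : f ⁻¹' Ioi a = Ioi (fs a) := by
          ext ξ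
          show a < f ξ ↔ fs a < ξ
          rw [LR_lt]
          constructor
          · rintro (h | ⟨_, h⟩)
            · exact h
            · exact absurd h (not_lt.2 (sn_nonneg a))
          · exact fun h => Or.inl h
        rw [e]; exact isOpen_Ioi
      · by_cases h0 : sn a = 0
        · have e : f ⁻¹' Iio a = Iio (fs a) := by
            ext ξ
            show f ξ < a ↔ ξ < fs a
            rw [LR_lt]
            constructor
            · rintro (h | ⟨_, h⟩)
              · exact h
              · rw [h0] at h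
                exact absurd h (lt_irrefl _)
            · exact fun h => Or.inl h
          rw [e]; exact isOpen_Iio
        · have e : f ⁻¹' Iio a = Iio (Order.succ (fs a)) := by
            ext ξ
            show f ξ < a ↔ ξ < Order.succ (fs a)
            rw [LR_lt, Order.lt_succ_iff]
            constructor
            · rintro (h | ⟨h, _⟩)
              · exact le_of_lt h
              · exact le_of_eq h
            · intro h
              rcases h.eq_or_lt with h | h
              · right
                refine ⟨h, ?_⟩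
                exact lt_of_le_of_ne (sn_nonneg a) (Ne.symm h0)
              · exact Or.inl h
          rw [e]; exact isOpen_Iio
    exact this
  refine ⟨f, ⟨⟨le_antisymm hcont.le_induced ?_⟩, hinj⟩⟩
  refine le_of_le_of_eq ?_ (OrderTopology.topology_eq_generate_intervals (α := W)).symm
  apply le_generateFrom
  rintro U ⟨a, rfl | rfl⟩
  · refine ⟨Ioi (f a), isOpen_Ioi, ?_⟩
    ext ξ
    exact hlt a ξ
  · refine ⟨Iio (f a), isOpen_Iio, ?_⟩
    ext ξ
    exact hlt ξ a

theorem general (hW : ∀ a : W, (Iio a).Countable) :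
    ∃ (X : Type) (_ : TopologicalSpace X), IsHNHManifold 2 X ∧
      ∀ z : X, (∃ f : W → NH z, IsEmbedding f) ∧ (∃ f : LR W → NH z, IsEmbedding f) := by
  obtain ⟨D⟩ := exists_dat hW
  haveI : Nonempty (Ioi (org W)) := by
    obtain ⟨b, hb⟩ := exists_gt (org W)
    exact ⟨⟨b, hb⟩⟩
  obtain ⟨X, hX, h1, h2⟩ := exists_surface D (locReal_Ioi hW)
  refine ⟨X, hX, h1, fun z => ?_⟩
  obtain ⟨f, hf⟩ := h2 z
  obtain ⟨g, hg⟩ := exists_shift (W := W)
  obtain ⟨k, hk⟩ := exists_sub (W := W)
  exact ⟨⟨_, hf.comp (hg.comp hk)⟩, ⟨_, hf.comp hg⟩⟩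

end gen

end Pool.Agent.X83.HZ
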