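import Pool.Agent.X83.NH.Defs

open Filter Topology Set

namespace Pool.Agent.X83.HZ

open Pool.Agent.X83.NH

variable {N : Type} [TopologicalSpace N]

variable (N) in
/-- The nonempty partial homeomorphisms. -/
def PH : Type := {h : OpenPartialHomeomorph N N // h.source.Nonempty}

variable (N) in
/-- The free group on them. -/
abbrev GA : Type := FreeGroup (PH N)

/-- The elementary identifications. -/
def step (p p' : N × GA N) : Prop :=
  ∃ h : PH N, p.1 ∈ h.1.source ∧ p.2 = p'.2 * FreeGroup.of h ∧ p'.1 = h.1 p.1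

/-- The identifications. -/
def stp (N : Type) [TopologicalSpace N] : Setoid (N × GA N) := Relation.EqvGen.setoid step

/-- The globalisation. -/
def MZ (N : Type) [TopologicalSpace N] : Type := Quotient (stp N)

/-- The copy of `N` with index `a`. -/
def io (a : GA N) (x : N) : MZ N := Quotient.mk (stp N) (x, a)

theorem io_eq_iff {a b : GA N} {x y : N} :
    io a x = io b y ↔ Relation.EqvGen step (x, a) (y, b) :=
  Quotient.eq (r := stp N)

theorem io_step (a : GA N) (h : PH N) {x : N} (hx : x ∈ h.1.source) :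
    io (a * FreeGroup.of h) x = io a (h.1 x) :=
  io_eq_iff.2 (Relation.EqvGen.rel _ _ ⟨h, hx, rfl, rfl⟩)

theorem io_surj (z : MZ N) : ∃ a x, io a x = z := by
  induction z using Quotient.inductionOn with
  | h p => exact ⟨p.2, p.1, rfl⟩

instance instTopMZ : TopologicalSpace (MZ N) :=
  ⨆ a : GA N, TopologicalSpace.coinduced (io a) inferInstance

theorem isOpen_iff {U : Set (MZ N)} : IsOpen U ↔ ∀ a, IsOpen (io a ⁻¹' U) := by
  change @IsOpen _ (instTopMZ) U ↔ _
  unfold instTopMZ
  rw [isOpen_iSup_iff]
  rfl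

theorem cont_iff {Y : Type*} [TopologicalSpace Y] {f : MZ N → Y} :
    Continuous f ↔ ∀ a, Continuous (f ∘ io a) := by
  constructor
  · intro h a
    rw [continuous_def] at h ⊢
    intro U hU
    exact isOpen_iff.1 (h U hU) a
  · intro h
    rw [continuous_def]
    intro U hU
    rw [isOpen_iff]
    intro a
    exact (h a).isOpen_preimage U hU

theorem io_continuous (a : GA N) : Continuous (io a) := by
  have h := (cont_iff (N := N) (f := id)).1 continuous_id a
  simpa using h

open scoped Classical in
/-- The extension of a partial homeomorphism to a bigger set, forward. -/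
noncomputable def hatF (h : OpenPartialHomeomorph N N) (p : N × ℤ) : N × ℤ :=
  if p.2 = 0 then (if p.1 ∈ h.source then (h p.1, 0) else (p.1, 1))
  else if 0 < p.2 then (if p.1 ∈ h.source then p else (p.1, p.2 + 1))
  else (if p.1 ∈ h.target then p else (p.1, p.2 + 1))

open scoped Classical in
/-- The extension of a partial homeomorphism to a bigger set, backward. -/
noncomputable def hatG (h : OpenPartialHomeomorph N N) (p : N × ℤ) : N × ℤ :=
  if p.2 = 0 then (if p.1 ∈ h.target then (h.symm p.1, 0) else (p.1, -1))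
  else if 0 < p.2 then (if p.1 ∈ h.source then p else (p.1, p.2 - 1))
  else (if p.1 ∈ h.target then p else (p.1, p.2 - 1))

section hat

variable (h : OpenPartialHomeomorph N N) {x : N} {k : ℤ}

theorem F1 (hx : x ∈ h.source) : hatF h (x, 0) = (h x, 0) := by
  unfold hatF; dsimp only; rw [if_pos rfl, if_pos hx]
theorem F2 (hx : x ∉ h.source) : hatF h (x, 0) = (x, 1) := by
  unfold hatF; dsimp only; rw [if_pos rfl, if_neg hx]
theorem F3 (hk : 0 < k) (hx : x ∈ h.source) : hatF h (x, k) = (x, k) := by
  unfold hatF; dsimp only; rw [if_neg hk.ne', if_pos hk, if_pos hx]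
theorem F4 (hk : 0 < k) (hx : x ∉ h.source) : hatF h (x, k) = (x, k + 1) := by
  unfold hatF; dsimp only; rw [if_neg hk.ne', if_pos hk, if_neg hx]
theorem F5 (hk : k < 0) (hx : x ∈ h.target) : hatF h (x, k) = (x, k) := by
  unfold hatF; dsimp only; rw [if_neg hk.ne, if_neg (not_lt.2 hk.le), if_pos hx]
theorem F6 (hk : k < 0) (hx : x ∉ h.target) : hatF h (x, k) = (x, k + 1) := by
  unfold hatF; dsimp only; rw [if_neg hk.ne, if_neg (not_lt.2 hk.le), if_neg hx]
theorem G1 (hx : x ∈ h.target) : hatG h (x, 0) = (h.symm x, 0) := by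
  unfold hatG; dsimp only; rw [if_pos rfl, if_pos hx]
theorem G2 (hx : x ∉ h.target) : hatG h (x, 0) = (x, -1) := by
  unfold hatG; dsimp only; rw [if_pos rfl, if_neg hx]
theorem G3 (hk : 0 < k) (hx : x ∈ h.source) : hatG h (x, k) = (x, k) := by
  unfold hatG; dsimp only; rw [if_neg hk.ne', if_pos hk, if_pos hx]
theorem G4 (hk : 0 < k) (hx : x ∉ h.source) : hatG h (x, k) = (x, k - 1) := by
  unfold hatG; dsimp only; rw [if_neg hk.ne', if_pos hk, if_neg hx]
theorem G5 (hk : k < 0) (hx : x ∈ h.target) : hatG h (x, k) = (x, k) := by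
  unfold hatG; dsimp only; rw [if_neg hk.ne, if_neg (not_lt.2 hk.le), if_pos hx]
theorem G6 (hk : k < 0) (hx : x ∉ h.target) : hatG h (x, k) = (x, k - 1) := by
  unfold hatG; dsimp only; rw [if_neg hk.ne, if_neg (not_lt.2 hk.le), if_neg hx]

end hat

/-- The extension of a partial homeomorphism to a permutation of a bigger set. -/
noncomputable def hat (h : OpenPartialHomeomorph N N) : Equiv.Perm (N × ℤ) where
  toFun := hatF h
  invFun := hatG h
  left_inv := by
    rintro ⟨x, k⟩
    rcases lt_trichotomy k 0 with hk | hk | hk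
    · by_cases hx : x ∈ h.target
      · rw [F5 h hk hx, G5 h hk hx]
      · rw [F6 h hk hx]
        rcases eq_or_ne (k + 1) 0 with h1 | h1
        · rw [h1, G2 h hx]
          congr 1; omega
        · rw [G6 h (by omega) hx, add_sub_cancel_right]
    · subst hk
      by_cases hx : x ∈ h.source
      · rw [F1 h hx, G1 h (h.map_source hx), h.left_inv hx]
      · rw [F2 h hx, G4 h one_pos hx, sub_self]
    · by_cases hx : x ∈ h.source
      · rw [F3 h hk hx, G3 h hk hx]
      · rw [F4 h hk hx, G4 h (by omega) hx, add_sub_cancel_right]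
  right_inv := by
    rintro ⟨x, k⟩
    rcases lt_trichotomy k 0 with hk | hk | hk
    · by_cases hx : x ∈ h.target
      · rw [G5 h hk hx, F5 h hk hx]
      · rw [G6 h hk hx, F6 h (by omega) hx, sub_add_cancel]
    · subst hk
      by_cases hx : x ∈ h.target
      · rw [G1 h hx, F1 h (h.map_target hx), h.right_inv hx]
      · rw [G2 h hx, F6 h (by omega) hx, neg_add_cancel]
    · by_cases hx : x ∈ h.source
      · rw [G3 h hk hx, F3 h hk hx]
      · rw [G4 h hk hx]
        rcases eq_or_ne (k - 1) 0 with h1 | h1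
        · rw [h1, F2 h hx]
          congr 1; omega
        · rw [F4 h (by omega) hx, sub_add_cancel]

theorem hat_apply (h : OpenPartialHomeomorph N N) {x : N} (hx : x ∈ h.source) :
    hat h (x, 0) = (h x, 0) := F1 h hx

/-- The action on the bigger set. -/
noncomputable def act0 : GA N →* Equiv.Perm (N × ℤ) := FreeGroup.lift fun h : PH N => hat h.1

/-- The invariant separating the points of one copy. -/
noncomputable def inv0 (p : N × GA N) : N × ℤ := act0 p.2 (p.1, 0)

theorem inv0_step {p p' : N × GA N} (h : step p p') : inv0 p = inv0 p' := by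
  obtain ⟨g, hx, h1, h2⟩ := h
  unfold inv0
  rw [h1, h2, map_mul, Equiv.Perm.mul_apply]
  congr 1
  unfold act0
  rw [FreeGroup.lift_apply_of]
  exact hat_apply g.1 hx

theorem inv0_eqv {p p' : N × GA N} (h : Relation.EqvGen step p p') : inv0 p = inv0 p' := by
  induction h with
  | rel _ _ h => exact inv0_step h
  | refl _ => rfl
  | symm _ _ _ ih => exact ih.symm
  | trans _ _ _ _ _ ih1 ih2 => exact ih1.trans ih2

theorem io_injective (a : GA N) : Function.Injective (io a) := by
  intro x y h
  have h1 := inv0_eqv (io_eq_iff.1 h)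
  have h2 := (act0 a).injective h1
  exact congrArg Prod.fst h2

theorem io_isOpenMap (a : GA N) : IsOpenMap (io a) := by
  intro U hU
  -- the good points
  let Good : N × GA N → Prop := fun p => ∀ᶠ x in 𝓝 p.1, io p.2 x ∈ io a '' U
  have hstep : ∀ p p', step p p' → (Good p ↔ Good p') := by
    rintro ⟨x, c⟩ ⟨y, d⟩ ⟨h, hx, h1, h2⟩
    dsimp only at hx h1 h2
    subst h1 h2
    constructor
    · intro hg
      have h3 : Tendsto h.1.symm (𝓝 (h.1 x)) (𝓝 x) := by
        have h4 := h.1.symm.continuousAt (x := h.1 x) (h.1.map_source hx)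
        unfold ContinuousAt at h4
        rwa [h.1.left_inv hx] at h4
      have h5 : ∀ᶠ y in 𝓝 (h.1 x), y ∈ h.1.target :=
        h.1.open_target.mem_nhds (h.1.map_source hx)
      filter_upwards [h3.eventually hg, h5] with y hy hy5
      have h6 := io_step d h (x := h.1.symm y) (h.1.map_target hy5)
      rw [h.1.right_inv hy5] at h6
      show io d y ∈ _
      rw [← h6]; exact hy
    · intro hg
      have h3 : Tendsto h.1 (𝓝 x) (𝓝 (h.1 x)) := h.1.continuousAt hx
      have h5 : ∀ᶠ y in 𝓝 x, y ∈ h.1.source := h.1.open_source.mem_nhds hx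
      filter_upwards [h3.eventually hg, h5] with y hy hy5
      show io (d * FreeGroup.of h) y ∈ _
      rw [io_step d h hy5]; exact hy
  have heqv : ∀ p p', Relation.EqvGen step p p' → (Good p ↔ Good p') := by
    intro p p' h
    induction h with
    | rel _ _ h => exact hstep _ _ h
    | refl _ => exact Iff.rfl
    | symm _ _ _ ih => exact ih.symm
    | trans _ _ _ _ _ ih1 ih2 => exact ih1.trans ih2
  rw [isOpen_iff]
  intro b
  rw [isOpen_iff_mem_nhds]
  rintro y ⟨x, hx, hxy⟩
  have h1 : Good (x, a) := by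
    filter_upwards [hU.mem_nhds hx] with x' hx'
    exact ⟨x', hx', rfl⟩
  exact (heqv _ _ (io_eq_iff.1 hxy)).1 h1

theorem io_isOpenEmbedding (a : GA N) : IsOpenEmbedding (io a) :=
  IsOpenEmbedding.of_continuous_injective_isOpenMap (io_continuous a) (io_injective a)
    (io_isOpenMap a)

/-- The action of the free group. -/
def act (g : GA N) : MZ N → MZ N :=
  Quotient.lift (fun p : N × GA N => io (g * p.2) p.1) (by
    intro p p' h
    have h' : Relation.EqvGen step p p' := h
    clear h
    induction h' with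
    | rel _ _ h =>
      obtain ⟨k, hx, h1, h2⟩ := h
      rw [h1, h2, ← mul_assoc]
      exact io_step _ k hx
    | refl _ => rfl
    | symm _ _ _ ih => exact ih.symm
    | trans _ _ _ _ _ ih1 ih2 => exact ih1.trans ih2)

theorem act_io (g a : GA N) (x : N) : act g (io a x) = io (g * a) x := rfl

theorem act_continuous (g : GA N) : Continuous (act g) := by
  rw [cont_iff]
  intro a
  exact io_continuous (g * a)

/-- The action by homeomorphisms. -/
def actH (g : GA N) : MZ N ≃ₜ MZ N where
  toFun := act g
  invFun := act g⁻¹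
  left_inv z := by
    obtain ⟨a, x, rfl⟩ := io_surj z
    rw [act_io, act_io, inv_mul_cancel_left]
  right_inv z := by
    obtain ⟨a, x, rfl⟩ := io_surj z
    rw [act_io, act_io, mul_inv_cancel_left]
  continuous_toFun := act_continuous g
  continuous_invFun := act_continuous g⁻¹

theorem actH_io (g a : GA N) (x : N) : actH g (io a x) = io (g * a) x := rfl

theorem locEuc {n : ℕ} (hN : LocallyEuclidean n N) : LocallyEuclidean n (MZ N) := by
  intro z
  obtain ⟨a, x, rfl⟩ := io_surj z
  obtain ⟨U, hU, hx, ⟨e⟩⟩ := hN x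
  exact ⟨io a '' U, io_isOpenMap a U hU, ⟨x, hx, rfl⟩,
    ⟨((io_isOpenEmbedding a).isEmbedding.homeomorphImage U).symm.trans e⟩⟩

/-- Any two points of a manifold are related by a partial homeomorphism. -/
theorem exists_partial {n : ℕ} (hN : LocallyEuclidean n N) (x y : N) :
    ∃ h : OpenPartialHomeomorph N N, x ∈ h.source ∧ h x = y := by
  obtain ⟨U, hU, hx, ⟨e⟩⟩ := hN x
  obtain ⟨V, hV, hy, ⟨f⟩⟩ := hN y
  -- the map between the neighbourhoods
  let g : U ≃ₜ V := e.trans ((Homeomorph.addRight (f ⟨y, hy⟩ - e ⟨x, hx⟩)).trans f.symm)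
  have hg : g ⟨x, hx⟩ = ⟨y, hy⟩ := by
    show f.symm (e ⟨x, hx⟩ + (f ⟨y, hy⟩ - e ⟨x, hx⟩)) = _
    rw [add_sub_cancel, Homeomorph.symm_apply_apply]
  haveI : Nonempty U := ⟨⟨x, hx⟩⟩
  haveI : Nonempty V := ⟨⟨y, hy⟩⟩
  let iU : OpenPartialHomeomorph U N :=
    IsOpenEmbedding.toOpenPartialHomeomorph Subtype.val hU.isOpenEmbedding_subtypeVal
  let iV : OpenPartialHomeomorph V N :=
    IsOpenEmbedding.toOpenPartialHomeomorph Subtype.val hV.isOpenEmbedding_subtypeVal
  refine ⟨(iU.symm.trans g.toOpenPartialHomeomorph).trans iV, ?_, ?_⟩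
  · rw [OpenPartialHomeomorph.trans_source, OpenPartialHomeomorph.trans_source]
    refine ⟨⟨?_, ?_⟩, ?_⟩
    · show x ∈ iU.target
      simp [iU, hx]
    · trivial
    · simp [iV]
  · have h1 : iU.symm x = ⟨x, hx⟩ := by
      have : iU ⟨x, hx⟩ = x := rfl
      conv_lhs => rw [← this]
      exact iU.left_inv (by simp [iU])
    show iV (g (iU.symm x)) = y
    rw [h1, hg]; rfl

theorem homog {n : ℕ} (hN : LocallyEuclidean n N) : Homogeneous (MZ N) := by
  intro z w
  obtain ⟨a, x, rfl⟩ := io_surj z
  obtain ⟨b, y, rfl⟩ := io_surj w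
  obtain ⟨h, hx, hxy⟩ := exists_partial hN x y
  let k : PH N := ⟨h, ⟨x, hx⟩⟩
  refine ⟨actH (b * FreeGroup.of k * a⁻¹), ?_⟩
  rw [actH_io, inv_mul_cancel_right, io_step b k hx]
  exact congrArg _ hxy

theorem extend (h : OpenPartialHomeomorph N N) (hne : h.source.Nonempty) :
    ∃ H : MZ N ≃ₜ MZ N, ∀ x ∈ h.source, H (io 1 x) = io 1 (h x) := by
  let k : PH N := ⟨h, hne⟩
  refine ⟨actH (FreeGroup.of k), fun x hx => ?_⟩
  rw [actH_io, mul_one]
  have := io_step (1 : GA N) k hx
  rwa [one_mul] at this

theorem conn [ConnectedSpace N] : ConnectedSpace (MZ N) := by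
  obtain ⟨x0⟩ := (inferInstance : Nonempty N)
  have hpre : ∀ a : GA N, IsPreconnected (range (io a)) := fun a =>
    isPreconnected_range (io_continuous a)
  -- right multiplication does not change the component
  have key : ∀ g : GA N, ∀ b : GA N, ∀ x y : N, connectedComponent (io (b * g) x)
      = connectedComponent (io b y) := by
    have h1 : ∀ b : GA N, ∀ x y : N, connectedComponent (io b x) = connectedComponent (io b y) :=
      fun b x y => connectedComponent_eq
        ((hpre b).subset_connectedComponent ⟨x, rfl⟩ ⟨y, rfl⟩)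
    intro g
    refine FreeGroup.induction_on g ?_ ?_ ?_ ?_
    · intro b x y; rw [mul_one]; exact h1 b x y
    · intro h b x y
      show connectedComponent (io (b * FreeGroup.of h) x) = _
      obtain ⟨x1, hx1⟩ := h.2
      rw [h1 _ x x1, io_step b h hx1]
      exact h1 _ _ _
    · intro h _ b x y
      show connectedComponent (io (b * (FreeGroup.of h)⁻¹) x) = _
      obtain ⟨x1, hx1⟩ := h.2
      rw [h1 b y x1]
      have h2 := io_step (b * (FreeGroup.of h)⁻¹) h hx1
      rw [inv_mul_cancel_right] at h2
      rw [h2]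
      exact h1 _ _ _
    · intro g1 g2 ih1 ih2 b x y
      rw [← mul_assoc, ih2 (b * g1) x y, ih1 b y y]
  have hcc : ∀ z : MZ N, z ∈ connectedComponent (io 1 x0) := by
    intro z
    obtain ⟨a, x, rfl⟩ := io_surj z
    have := key a 1 x x0
    rw [one_mul] at this
    rw [← this]
    exact mem_connectedComponent
  have : Nonempty (MZ N) := ⟨io 1 x0⟩
  exact { isPreconnected_univ := by
            have h := isPreconnected_connectedComponent (x := io (1 : GA N) x0)
            rwa [eq_univ_of_forall hcc] at h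
          toNonempty := this }

end Pool.Agent.X83.HZ
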