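import Mathlib

open Filter Topology Set

namespace Pool.Agent.X83.HZ

/-- Linear interpolation between the integer times. -/
noncomputable def mix (f : ℤ → ℝ) (ρ : ℝ) : ℝ := f ⌊ρ⌋ + Int.fract ρ * (f (⌊ρ⌋ + 1) - f ⌊ρ⌋)

theorem mix_lt {f g : ℤ → ℝ} {ρ : ℝ} (h1 : f ⌊ρ⌋ < g ⌊ρ⌋) (h2 : f (⌊ρ⌋ + 1) < g (⌊ρ⌋ + 1)) :
    mix f ρ < mix g ρ := by
  unfold mix
  have h3 := Int.fract_nonneg ρ
  have h4 := Int.fract_lt_one ρ
  nlinarith

theorem mix_le {f g : ℤ → ℝ} {ρ : ℝ} (h1 : f ⌊ρ⌋ ≤ g ⌊ρ⌋) (h2 : f (⌊ρ⌋ + 1) ≤ g (⌊ρ⌋ + 1)) :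
    mix f ρ ≤ mix g ρ := by
  unfold mix
  have h3 := Int.fract_nonneg ρ
  have h4 := Int.fract_lt_one ρ
  nlinarith

theorem mix_const (c : ℝ) (ρ : ℝ) : mix (fun _ => c) ρ = c := by unfold mix; ring

theorem mix_abs_le {f : ℤ → ℝ} (h : ∀ k, |f k| ≤ 1) (ρ : ℝ) : |mix f ρ| ≤ 1 := by
  rw [abs_le]
  constructor
  · have := mix_le (f := fun _ => (-1 : ℝ)) (g := f) (ρ := ρ) (abs_le.1 (h _)).1 (abs_le.1 (h _)).1
    rwa [mix_const] at this
  · have := mix_le (f := f) (g := fun _ => (1 : ℝ)) (ρ := ρ) (abs_le.1 (h _)).2 (abs_le.1 (h _)).2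
    rwa [mix_const] at this

theorem floor_eventually {P : ℤ → Prop} (h : ∀ᶠ k in atTop, P k) :
    ∀ᶠ ρ : ℝ in atTop, P ⌊ρ⌋ ∧ P (⌊ρ⌋ + 1) := by
  have h1 : Tendsto (fun ρ : ℝ => ⌊ρ⌋) atTop atTop := tendsto_floor_atTop
  have h2 : Tendsto (fun ρ : ℝ => ⌊ρ⌋ + 1) atTop atTop := tendsto_atTop_add_const_right _ 1 h1
  exact (h1.eventually h).and (h2.eventually h)

theorem mix_eventually_lt {f g : ℤ → ℝ} (h : ∀ᶠ k in atTop, f k < g k) :
    ∀ᶠ ρ in atTop, mix f ρ < mix g ρ := by
  filter_upwards [floor_eventually h] with ρ hρ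
  exact mix_lt hρ.1 hρ.2

theorem mix_eventually_eq {f g : ℤ → ℝ} (h : ∀ᶠ k in atTop, f k = g k) :
    ∀ᶠ ρ in atTop, mix f ρ = mix g ρ := by
  filter_upwards [floor_eventually h] with ρ hρ
  unfold mix
  rw [hρ.1, hρ.2]

theorem mix_local (f : ℤ → ℝ) (k : ℤ) (ρ : ℝ) (h : |ρ - k| < 1) :
    mix f ρ = f k + max (ρ - k) 0 * (f (k + 1) - f k) + min (ρ - k) 0 * (f k - f (k - 1)) := by
  rw [abs_lt] at h
  unfold mix
  rcases le_or_gt (k : ℝ) ρ with hk | hk
  · have hf : ⌊ρ⌋ = k := Int.floor_eq_iff.2 ⟨hk, by linarith⟩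
    have hfr : Int.fract ρ = ρ - k := by
      rw [← hf]; rfl
    rw [hfr, hf, max_eq_left (by linarith), min_eq_right (by linarith)]; ring
  · have hf : ⌊ρ⌋ = k - 1 := by
      rw [Int.floor_eq_iff]
      push_cast
      constructor <;> linarith
    have hfr : Int.fract ρ = ρ - (k - 1) := by
      have : Int.fract ρ = ρ - ⌊ρ⌋ := rfl
      rw [this, hf]; push_cast; ring
    rw [hfr, hf, max_eq_right (by linarith), min_eq_left (by linarith), sub_add_cancel]; ring

theorem mix_continuous_joint {X : Type*} [TopologicalSpace X] (f : X → ℤ → ℝ)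
    (hf : ∀ k, Continuous fun x => f x k) :
    Continuous fun p : ℝ × X => mix (f p.2) p.1 := by
  rw [continuous_iff_continuousAt]
  rintro ⟨ρ, x⟩
  have h1 : |ρ - round ρ| < 1 := lt_of_le_of_lt (abs_sub_round ρ) (by norm_num)
  set k := round ρ with hk
  have h2 : ContinuousAt (fun p : ℝ × X => f p.2 k + max (p.1 - k) 0 * (f p.2 (k + 1) - f p.2 k)
      + min (p.1 - k) 0 * (f p.2 k - f p.2 (k - 1))) (ρ, x) := by
    have c0 := (hf k).comp (continuous_snd (X := ℝ) (Y := X))
    have c1 := (hf (k + 1)).comp (continuous_snd (X := ℝ) (Y := X))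
    have c2 := (hf (k - 1)).comp (continuous_snd (X := ℝ) (Y := X))
    have c3 : Continuous fun p : ℝ × X => p.1 - (k : ℝ) := continuous_fst.sub continuous_const
    exact ((c0.add ((c3.max continuous_const).mul (c1.sub c0))).add
      ((c3.min continuous_const).mul (c0.sub c2))).continuousAt
  refine h2.congr ?_
  have h3 : ∀ᶠ p : ℝ × X in 𝓝 (ρ, x), |p.1 - k| < 1 := by
    have c : Continuous fun p : ℝ × X => |p.1 - (k : ℝ)| :=
      (continuous_fst.sub continuous_const).abs
    exact c.continuousAt.eventually_lt continuousAt_const h1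
  filter_upwards [h3] with p hp
  exact (mix_local (f p.2) k p.1 hp).symm

theorem mix_continuous (f : ℤ → ℝ) : Continuous (mix f) := by
  have h := mix_continuous_joint (X := Unit) (fun _ => f) (fun _ => continuous_const)
  exact h.comp (continuous_id.prodMk (continuous_const (y := ())))

/-- The interpolated family of order isomorphisms. -/
noncomputable def FF (F : ℤ → ℝ ≃o ℝ) (ρ v : ℝ) : ℝ := mix (fun k => F k v) ρ

theorem FF_continuous (F : ℤ → ℝ ≃o ℝ) : Continuous fun p : ℝ × ℝ => FF F p.1 p.2 :=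
  mix_continuous_joint (fun v k => F k v) fun k => (F k).continuous

theorem FF_strictMono (F : ℤ → ℝ ≃o ℝ) (ρ : ℝ) : StrictMono (FF F ρ) := fun _ _ h =>
  mix_lt ((F _).strictMono h) ((F _).strictMono h)

theorem FF_surj (F : ℤ → ℝ ≃o ℝ) (ρ : ℝ) : Function.Surjective (FF F ρ) := by
  intro y
  set v1 := min ((F ⌊ρ⌋).symm y) ((F (⌊ρ⌋ + 1)).symm y) with hv1
  set v2 := max ((F ⌊ρ⌋).symm y) ((F (⌊ρ⌋ + 1)).symm y) with hv2
  have h1 : FF F ρ v1 ≤ y := by
    have := mix_le (f := fun k => F k v1) (g := fun _ => y) (ρ := ρ)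
      ((F _).le_symm_apply.1 (min_le_left _ _)) ((F _).le_symm_apply.1 (min_le_right _ _))
    rwa [mix_const] at this
  have h2 : y ≤ FF F ρ v2 := by
    have := mix_le (f := fun _ => y) (g := fun k => F k v2) (ρ := ρ)
      ((F _).symm_apply_le.1 (le_max_left _ _)) ((F _).symm_apply_le.1 (le_max_right _ _))
    rwa [mix_const] at this
  have hc : Continuous (FF F ρ) := (FF_continuous F).comp (continuous_const.prodMk continuous_id)
  have h12 : v1 ≤ v2 := min_le_max
  obtain ⟨v, _, hv⟩ := intermediate_value_Icc h12 hc.continuousOn ⟨h1, h2⟩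
  exact ⟨v, hv⟩

/-- The inverse. -/
noncomputable def FI (F : ℤ → ℝ ≃o ℝ) (ρ y : ℝ) : ℝ := (FF_surj F ρ y).choose

theorem FF_FI (F : ℤ → ℝ ≃o ℝ) (ρ y : ℝ) : FF F ρ (FI F ρ y) = y := (FF_surj F ρ y).choose_spec

theorem FI_FF (F : ℤ → ℝ ≃o ℝ) (ρ v : ℝ) : FI F ρ (FF F ρ v) = v :=
  (FF_strictMono F ρ).injective (FF_FI F ρ _)

theorem FI_lt_iff (F : ℤ → ℝ ≃o ℝ) {ρ y v : ℝ} : FI F ρ y < v ↔ y < FF F ρ v := by
  rw [← (FF_strictMono F ρ).lt_iff_lt, FF_FI]

theorem lt_FI_iff (F : ℤ → ℝ ≃o ℝ) {ρ y v : ℝ} : v < FI F ρ y ↔ FF F ρ v < y := by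
  rw [← (FF_strictMono F ρ).lt_iff_lt, FF_FI]

theorem FI_continuous (F : ℤ → ℝ ≃o ℝ) : Continuous fun p : ℝ × ℝ => FI F p.1 p.2 := by
  rw [continuous_iff_continuousAt]
  rintro ⟨ρ, y⟩
  unfold ContinuousAt
  rw [tendsto_order]
  constructor
  · intro v hv
    dsimp only at hv
    rw [lt_FI_iff] at hv
    have c : Continuous fun p : ℝ × ℝ => FF F p.1 v :=
      (FF_continuous F).comp (continuous_fst.prodMk continuous_const)
    filter_upwards [c.continuousAt.eventually_lt continuous_snd.continuousAt hv] with p hp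
    exact (lt_FI_iff F).2 hp
  · intro v hv
    dsimp only at hv
    rw [gt_iff_lt, FI_lt_iff] at hv
    have c : Continuous fun p : ℝ × ℝ => FF F p.1 v :=
      (FF_continuous F).comp (continuous_fst.prodMk continuous_const)
    filter_upwards [continuous_snd.continuousAt.eventually_lt c.continuousAt hv] with p hp
    exact (FI_lt_iff F).2 hp

/-- An order isomorphism of the line through finitely many prescribed points. -/
theorem exists_iso_finset (S : Finset ℝ) (v : ℝ → ℝ) (hv : ∀ a ∈ S, ∀ b ∈ S, a < b → v a < v b) :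
    ∃ F : ℝ ≃o ℝ, ∀ a ∈ S, F a = v a := by
  induction S using Finset.induction_on_max with
  | empty => exact ⟨OrderIso.refl ℝ, fun a ha => absurd ha (Finset.notMem_empty a)⟩
  | insert a S ha ih =>
    obtain ⟨F, hF⟩ := ih fun b hb c hc => hv b (Finset.mem_insert_of_mem hb) c
      (Finset.mem_insert_of_mem hc)
    rcases S.eq_empty_or_nonempty with hS | hS
    · subst hS
      refine ⟨OrderIso.addRight (v a - a), fun b hb => ?_⟩
      rw [Finset.mem_insert] at hb
      rcases hb with rfl | hb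
      · show b + (v b - b) = v b
        ring
      · exact absurd hb (Finset.notMem_empty b)
    · set m := S.max' hS with hm
      have hmS : m ∈ S := S.max'_mem hS
      have hma : m < a := ha m hmS
      have hvm : v m < v a := hv m (Finset.mem_insert_of_mem hmS) a (Finset.mem_insert_self a S) hma
      set κ := (v a - v m) / (a - m) with hκ
      have hκ0 : 0 < κ := div_pos (sub_pos.2 hvm) (sub_pos.2 hma)
      let f : ℝ → ℝ := fun x => if x ≤ m then F x else v m + (x - m) * κ
      have hFm : F m = v m := hF m hmS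
      have hf : StrictMono f := by
        intro x y hxy
        show (if x ≤ m then F x else v m + (x - m) * κ) < (if y ≤ m then F y else v m + (y - m) * κ)
        by_cases hy : y ≤ m
        · rw [if_pos hy, if_pos (hxy.le.trans hy)]; exact F.strictMono hxy
        · rw [if_neg hy]
          push Not at hy
          by_cases hx : x ≤ m
          · rw [if_pos hx]
            have h1 : F x ≤ v m := by rw [← hFm]; exact F.monotone hx
            have h2 : 0 < (y - m) * κ := mul_pos (sub_pos.2 hy) hκ0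
            linarith
          · rw [if_neg hx]
            have : (x - m) * κ < (y - m) * κ := mul_lt_mul_of_pos_right (by linarith) hκ0
            linarith
      have hs : Function.Surjective f := by
        intro y
        rcases le_or_gt y (v m) with h | h
        · refine ⟨F.symm y, ?_⟩
          show (if F.symm y ≤ m then F (F.symm y) else _) = y
          rw [if_pos, F.apply_symm_apply]
          rw [F.symm_apply_le, hFm]; exact h
        · refine ⟨m + (y - v m) / κ, ?_⟩
          show (if m + (y - v m) / κ ≤ m then _ else v m + (m + (y - v m) / κ - m) * κ) = y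
          have h1 : 0 < (y - v m) / κ := div_pos (sub_pos.2 h) hκ0
          rw [if_neg (by linarith), add_sub_cancel_left, div_mul_cancel₀ _ hκ0.ne']
          ring
      refine ⟨hf.orderIsoOfSurjective f hs, fun b hb => ?_⟩
      show f b = v b
      rw [Finset.mem_insert] at hb
      rcases hb with rfl | hb
      · show (if b ≤ m then F b else v m + (b - m) * κ) = v b
        rw [if_neg (not_le.2 hma), hκ, mul_div_cancel₀ _ (sub_pos.2 hma).ne']
        ring
      · show (if b ≤ m then F b else v m + (b - m) * κ) = v b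
        rw [if_pos (S.le_max' b hb)]
        exact hF b hb

/-- Order isomorphisms through countably many asymptotically ordered functions. -/
theorem exists_iso_seq (γ : ℚ → ℤ → ℝ)
    (hγ : ∀ p q : ℚ, p < q → ∀ᶠ k in atTop, γ p k < γ q k) :
    ∃ F : ℤ → ℝ ≃o ℝ, ∀ q : ℚ, ∀ᶠ k in atTop, F k q = γ q k := by
  classical
  -- the first `n` rationals
  let T : ℕ → Finset ℚ := fun n =>
    (Finset.range n).biUnion fun i => ((Encodable.decode (α := ℚ) i).toFinset)
  have hTmem : ∀ q : ℚ, ∀ n, Encodable.encode q < n → q ∈ T n := by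
    intro q n hn
    rw [Finset.mem_biUnion]
    refine ⟨Encodable.encode q, Finset.mem_range.2 hn, ?_⟩
    rw [Encodable.encodek]
    simp
  let P : ℤ → ℕ → Prop := fun k n => ∀ p ∈ T n, ∀ q ∈ T n, p < q → γ p k < γ q k
  have hP0 : ∀ k, P k 0 := by
    intro k p hp
    simp [T] at hp
  let m : ℤ → ℕ := fun k => Nat.findGreatest (P k) k.toNat
  have hm : ∀ k, P k (m k) := fun k => Nat.findGreatest_spec (P := P k) (Nat.zero_le _) (hP0 k)
  have hPev : ∀ n, ∀ᶠ k in atTop, P k n := by
    intro n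
    have h1 : ∀ p ∈ T n, ∀ᶠ k : ℤ in atTop, ∀ q ∈ T n, p < q → γ p k < γ q k := by
      intro p _
      rw [Filter.eventually_all_finset]
      intro q _
      by_cases hpq : p < q
      · filter_upwards [hγ p q hpq] with k hk _
        exact hk
      · exact Eventually.of_forall fun k h => absurd h hpq
    exact (Filter.eventually_all_finset (T n)).2 h1
  have hex : ∀ k : ℤ, ∃ F : ℝ ≃o ℝ, ∀ q ∈ T (m k), F q = γ q k := by
    intro k
    have h1 := exists_iso_finset ((T (m k)).map ⟨fun q : ℚ => (q : ℝ), Rat.cast_injective⟩)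
      (fun x => if h : ∃ q : ℚ, (q : ℝ) = x then γ h.choose k else 0) ?_
    · obtain ⟨F, hF⟩ := h1
      refine ⟨F, fun q hq => ?_⟩
      rw [hF q (Finset.mem_map.2 ⟨q, hq, rfl⟩)]
      have hq' : ∃ q' : ℚ, (q' : ℝ) = q := ⟨q, rfl⟩
      rw [dif_pos hq']
      congr 1
      exact Rat.cast_injective hq'.choose_spec
    · intro a ha b hb hab
      obtain ⟨p, hp, rfl⟩ := Finset.mem_map.1 ha
      obtain ⟨q, hq, rfl⟩ := Finset.mem_map.1 hb
      dsimp only [Function.Embedding.coeFn_mk] at hab ⊢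
      have hp' : ∃ q' : ℚ, (q' : ℝ) = p := ⟨p, rfl⟩
      have hq' : ∃ q' : ℚ, (q' : ℝ) = q := ⟨q, rfl⟩
      rw [dif_pos hp', dif_pos hq']
      have e1 : hp'.choose = p := Rat.cast_injective hp'.choose_spec
      have e2 : hq'.choose = q := Rat.cast_injective hq'.choose_spec
      rw [e1, e2]
      exact hm k p hp q hq (by exact_mod_cast hab)
  choose F hF using hex
  refine ⟨F, fun q => ?_⟩
  filter_upwards [hPev (Encodable.encode q + 1), eventually_ge_atTop ((Encodable.encode q + 1 : ℕ) : ℤ)]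
    with k hk1 hk2
  apply hF
  apply hTmem
  have h1 : Encodable.encode q + 1 ≤ m k :=
    Nat.le_findGreatest (by omega) hk1
  omega

end Pool.Agent.X83.HZ
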