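import Pool.Agent.X83.HZ.Fin

open Filter Topology Set Ordinal Cardinal

namespace Pool.Agent.X83.HZ

open Pool.Agent.X83.NH

/-- The subspace `A` contains a copy of the linearly ordered set `L`, the latter with its order
topology. -/
def HasCopy (L : Type) [LinearOrder L] {X : Type} [TopologicalSpace X] (A : Set X) : Prop :=
  ∃ f : L → A, @IsEmbedding L A (Preorder.topology L) _ f

theorem omega1_facts : Nonempty (ω₁ : Ordinal.{0}).ToType ∧ NoMaxOrder (ω₁ : Ordinal.{0}).ToType ∧
    ∀ a : (ω₁ : Ordinal.{0}).ToType, (Iio a).Countable := by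
  have key : ∀ o : Ordinal.{0}, o = (ℵ_ 1).ord → Nonempty o.ToType ∧ NoMaxOrder o.ToType ∧
      ∀ a : o.ToType, (Iio a).Countable := by
    rintro o rfl
    refine ⟨?_, Cardinal.noMaxOrder (Cardinal.aleph0_le_aleph 1), fun a => ?_⟩
    · rw [Ordinal.nonempty_toType_iff, ne_eq, Cardinal.ord_eq_zero]
      exact (Cardinal.aleph_pos 1).ne'
    · rw [Cardinal.countable_iff_lt_aleph_one]
      exact Cardinal.mk_Iio_toType_ord_lt a
  exact key _ (Cardinal.ord_aleph 1).symm

noncomputable local instance instBotOmega : OrderBot (ω₁ : Ordinal.{0}).ToType :=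
  haveI := omega1_facts.1
  WellFoundedLT.toOrderBot _

noncomputable local instance instTopOmega : TopologicalSpace (ω₁ : Ordinal.{0}).ToType := Preorder.topology _

local instance instOrderTopOmega : OrderTopology (ω₁ : Ordinal.{0}).ToType := ⟨rfl⟩

theorem omega_result : ∃ (X : Type) (_ : TopologicalSpace X), IsHNHManifold 2 X ∧
    ∀ z : X, HasCopy (ω₁ : Ordinal.{0}).ToType (NH z) ∧
      HasCopy ((ω₁ : Ordinal.{0}).ToType ×ₗ Ico (0 : ℝ) 1) (NH z) := by
  obtain ⟨h1, h2, h3⟩ := omega1_facts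
  obtain ⟨X, hX, k1, k2⟩ := general (W := (ω₁ : Ordinal.{0}).ToType) h3
  exact ⟨X, hX, k1, fun z => ⟨(k2 z).1, (k2 z).2⟩⟩

end Pool.Agent.X83.HZ
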