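import Pool.Agent.X83.HZ.Surf
import Pool.Agent.X83.HZ.Free

open Filter Topology Set NNReal

namespace Pool.Agent.X83.HZ

open Pool.Agent.X83.NH

theorem NH_map {X : Type} [TopologicalSpace X] (g : X ≃ₜ X) {z y : X} (h : y ∈ NH z) :
    g y ∈ NH (g z) := by
  refine ⟨fun he => h.1 (g.injective he), ?_⟩
  intro U V hU hV hy hz
  obtain ⟨x, hx1, hx2⟩ := h.2 (g ⁻¹' U) (g ⁻¹' V) (hU.preimage g.continuous)
    (hV.preimage g.continuous) hy hz
  exact ⟨g x, hx1, hx2⟩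

variable {Λ : Type} [LinearOrder Λ] [TopologicalSpace Λ] [OrderTopology Λ] [NoMinOrder Λ]
  [NoMaxOrder Λ] [DenselyOrdered Λ] {D : Dat Λ}

omit [NoMinOrder Λ] [NoMaxOrder Λ] [DenselyOrdered Λ] in
/-- The twist takes every graph across every other one. -/
theorem crossing (D : Dat Λ) (s s0 : Λ) :
    ∃ᶠ ρ : ℝ in atTop, mix (D.G s) ρ + 3 * Real.cos (Real.pi * ρ) = mix (D.G s0) ρ := by
  rw [frequently_atTop]
  intro K
  obtain ⟨n, hn⟩ := exists_nat_gt K
  have hcos0 : Real.cos (Real.pi * (2 * n : ℝ)) = 1 := by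
    rw [show Real.pi * (2 * n : ℝ) = n * (2 * Real.pi) by ring]
    exact Real.cos_nat_mul_two_pi n
  have hcos1 : Real.cos (Real.pi * (2 * n + 1 : ℝ)) = -1 := by
    rw [show Real.pi * (2 * n + 1 : ℝ) = Real.pi + n * (2 * Real.pi) by ring,
      Real.cos_add_nat_mul_two_pi, Real.cos_pi]
  let f : ℝ → ℝ := fun ρ => mix (D.G s) ρ + 3 * Real.cos (Real.pi * ρ) - mix (D.G s0) ρ
  have hf : Continuous f :=
    ((mix_continuous _).add (continuous_const.mul
      (Real.continuous_cos.comp (continuous_const.mul continuous_id)))).sub (mix_continuous _)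
  have hb := fun (t : Λ) (ρ : ℝ) => abs_le.1 (mix_abs_le (D.hb t) ρ)
  have h0 : 0 ≤ f (2 * n : ℝ) := by
    show 0 ≤ mix (D.G s) (2 * n : ℝ) + 3 * Real.cos (Real.pi * (2 * n : ℝ))
      - mix (D.G s0) (2 * n : ℝ)
    rw [hcos0]
    have h1 := hb s (2 * n : ℝ)
    have h2 := hb s0 (2 * n : ℝ)
    linarith
  have h1 : f (2 * n + 1 : ℝ) ≤ 0 := by
    show mix (D.G s) (2 * n + 1 : ℝ) + 3 * Real.cos (Real.pi * (2 * n + 1 : ℝ))
      - mix (D.G s0) (2 * n + 1 : ℝ) ≤ 0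
    rw [hcos1]
    have h1 := hb s (2 * n + 1 : ℝ)
    have h2 := hb s0 (2 * n + 1 : ℝ)
    linarith
  obtain ⟨ρ, hρ, hρ0⟩ := intermediate_value_Icc' (by linarith : (2 * n : ℝ) ≤ 2 * n + 1)
    hf.continuousOn ⟨h1, h0⟩
  refine ⟨ρ, ?_, ?_⟩
  · have h3 : (0 : ℝ) ≤ n := Nat.cast_nonneg n
    have := hρ.1
    linarith
  · have h4 : mix (D.G s) ρ + 3 * Real.cos (Real.pi * ρ) - mix (D.G s0) ρ = 0 := hρ0
    linarith

/-- The twist of the plane. -/
noncomputable def tws : (ℝ × ℝ) ≃ₜ (ℝ × ℝ) where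
  toFun p := (p.1, p.2 + 3 * Real.cos (Real.pi * p.1))
  invFun p := (p.1, p.2 - 3 * Real.cos (Real.pi * p.1))
  left_inv p := by simp
  right_inv p := by simp
  continuous_toFun := by fun_prop
  continuous_invFun := by fun_prop

omit [OrderTopology Λ] [DenselyOrdered Λ] in
theorem exists_twist (D : Dat Λ) : ∃ h : OpenPartialHomeomorph (NN D) (NN D),
    h.source.Nonempty ∧ ∀ p, pl D p ∈ h.source ∧ h (pl D p) = pl D (tws p) := by
  let P : OpenPartialHomeomorph (ℝ × ℝ) (NN D) :=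
    IsOpenEmbedding.toOpenPartialHomeomorph (pl D) pl_isOpenEmbedding
  have hPs : ∀ p, P.symm (pl D p) = p := fun p => by
    have h1 : P p = pl D p := rfl
    rw [← h1]
    exact P.left_inv (by simp [P])
  have key : ∀ p, pl D p ∈ ((P.symm.trans tws.toOpenPartialHomeomorph).trans P).source ∧
      ((P.symm.trans tws.toOpenPartialHomeomorph).trans P) (pl D p) = pl D (tws p) := by
    intro p
    constructor
    · rw [OpenPartialHomeomorph.trans_source, OpenPartialHomeomorph.trans_source]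
      refine ⟨⟨?_, trivial⟩, ?_⟩
      · show pl D p ∈ P.target
        simp [P]
      · simp [P]
    · show P (tws (P.symm (pl D p))) = _
      rw [hPs]; rfl
  exact ⟨_, ⟨_, (key (0, 0)).1⟩, key⟩

omit [TopologicalSpace Λ] [OrderTopology Λ] [NoMinOrder Λ] [NoMaxOrder Λ] [DenselyOrdered Λ] in
theorem up_dn_disjoint (m : Λ) : Disjoint (up D m) (dn D m) := by
  rw [disjoint_left]
  intro z h1 h2
  rcases NN_cases z with ⟨p, rfl⟩ | ⟨q, rfl⟩
  · rw [pl_mem_up] at h1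
    rw [pl_mem_dn] at h2
    exact lt_asymm h1 h2
  · rw [st_mem_up] at h1
    rw [st_mem_dn] at h2
    exact lt_asymm h1 h2

/-- The homogenised surface contains the line `Λ` in a set of non-separated points. -/
theorem exists_embed (D : Dat Λ) (s0 : Λ) :
    ∃ f : Λ → NH (io (1 : GA (NN D)) (st D (s0, 0))), IsEmbedding f := by
  obtain ⟨h, hne, hh⟩ := exists_twist D
  obtain ⟨H, hH⟩ := extend h hne
  have hHp : ∀ p, H (io 1 (pl D p)) = io 1 (pl D (tws p)) := fun p => by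
    rw [hH _ (hh p).1, (hh p).2]
  have hio := io_isOpenEmbedding (N := NN D) 1
  -- non-separation
  have hns : ∀ s : Λ, ∀ A A' : Set (MZ (NN D)), IsOpen A → IsOpen A' →
      H (io 1 (st D (s, 0))) ∈ A → io 1 (st D (s0, 0)) ∈ A' → (A ∩ A').Nonempty := by
    intro s A A' hA hA' hs hs0
    have hU1 : IsOpen ((fun x => H (io 1 x)) ⁻¹' A) :=
      hA.preimage (H.continuous.comp hio.continuous)
    have hU2 : IsOpen (io (1 : GA (NN D)) ⁻¹' A') := hA'.preimage hio.continuous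
    obtain ⟨a1, b1, ha1, hb1, h1⟩ := (isOpen_NN.1 hU1).2.2 s hs
    obtain ⟨a2, b2, ha2, hb2, h2⟩ := (isOpen_NN.1 hU2).2.2 s0 hs0
    have hev := (h1.and (h2.and ((mix_eventually_lt (D.hG _ _ ha1)).and
      ((mix_eventually_lt (D.hG _ _ hb1)).and ((mix_eventually_lt (D.hG _ _ ha2)).and
      (mix_eventually_lt (D.hG _ _ hb2)))))))
    obtain ⟨ρ, hρ, k1, k2, k3, k4, k5, k6⟩ := ((crossing D s s0).and_eventually hev).exists
    have e1 := k1 _ k3 k4
    have e2 := k2 _ k5 k6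
    refine ⟨H (io 1 (pl D (ρ, mix (D.G s) ρ))), e1, ?_⟩
    rw [hHp]
    have e3 : tws (ρ, mix (D.G s) ρ) = (ρ, mix (D.G s0) ρ) := by
      show (ρ, mix (D.G s) ρ + 3 * Real.cos (Real.pi * ρ)) = _
      rw [hρ]
    rw [e3]; exact e2
  -- the points are different
  have hnq : ∀ s : Λ, H (io 1 (st D (s, 0))) ≠ io 1 (st D (s0, 0)) := by
    intro s hs
    obtain ⟨s', hs'⟩ := exists_gt s
    obtain ⟨m, hm1, hm2⟩ := exists_between hs'
    have hopen : ∀ U : Set (NN D), IsOpen U → IsOpen ((fun x => H (io 1 x)) '' U) := by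
      intro U hU
      have := H.isOpenMap _ (hio.isOpenMap U hU)
      rwa [image_image] at this
    obtain ⟨x, ⟨y1, hy1, hx1⟩, ⟨y2, hy2, hx2⟩⟩ := hns s' _ _ (hopen _ (up_open (D := D) m))
      (hopen _ (dn_open (D := D) m)) ⟨_, st_mem_up.2 hm2, rfl⟩
      (by rw [← hs]; exact ⟨_, st_mem_dn.2 hm1, rfl⟩)
    have : y1 = y2 := hio.injective (H.injective (hx1.trans hx2.symm))
    subst this
    exact disjoint_left.1 (up_dn_disjoint m) hy1 hy2
  have hemb : IsEmbedding fun s : Λ => H (io 1 (st D (s, 0))) :=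
    H.isEmbedding.comp (hio.isEmbedding.comp bd_isEmbedding)
  have hmem : ∀ s : Λ, H (io 1 (st D (s, 0))) ∈ NH (io (1 : GA (NN D)) (st D (s0, 0))) :=
    fun s => ⟨hnq s, hns s⟩
  exact ⟨Set.codRestrict _ _ hmem, hemb.codRestrict _ hmem⟩

/-- Local coordinates on `Λ`. -/
def LocReal (Λ : Type) [LinearOrder Λ] : Prop :=
  ∀ s : Λ, ∃ (e : ℝ → Λ) (a b : Λ), StrictMono e ∧ range e = Ioo a b ∧ a < s ∧ s < b

omit [DenselyOrdered Λ] in
theorem exists_chart (D : Dat Λ) [Nonempty Λ] (hloc : LocReal Λ) (z : NN D) :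
    ∃ c : Cht D, z ∈ range c.kap := by
  have hpl : ∀ (c : Cht D) p, pl D p ∈ range c.kap := by
    rintro c ⟨ρ, y⟩
    refine ⟨(-Real.exp (-ρ), FI c.F ρ y), ?_⟩
    have hneg : -Real.exp (-ρ) < 0 := by simpa using Real.exp_pos (-ρ)
    rw [c.kap_neg hneg]
    dsimp only
    rw [neg_neg, Real.log_exp, neg_neg, FF_FI]
  rcases NN_cases z with ⟨p, rfl⟩ | ⟨⟨s, r⟩, rfl⟩
  · obtain ⟨s⟩ := (inferInstance : Nonempty Λ)
    obtain ⟨e, a, b, he, hr, _, _⟩ := hloc s
    obtain ⟨c, _⟩ := exists_cht D e he a b hr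
    exact ⟨c, hpl c p⟩
  · obtain ⟨e, a, b, he, hr, ha, hb⟩ := hloc s
    obtain ⟨c, hc⟩ := exists_cht D e he a b hr
    have : s ∈ range e := by rw [hr]; exact ⟨ha, hb⟩
    obtain ⟨v, hv⟩ := this
    refine ⟨c, ((r : ℝ), v), ?_⟩
    rw [c.kap_nonneg r.2, hc]
    dsimp only
    rw [hv, Real.toNNReal_coe]

omit [DenselyOrdered Λ] in
theorem NN_locEuc (D : Dat Λ) [Nonempty Λ] (hloc : LocReal Λ) : LocallyEuclidean 2 (NN D) := by
  intro z
  obtain ⟨c, hc⟩ := exists_chart D hloc z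
  refine ⟨range c.kap, c.kap_isOpenEmbedding.isOpen_range, hc, ?_⟩
  have e1 : (range c.kap) ≃ₜ (ℝ × ℝ) := c.kap_isOpenEmbedding.isEmbedding.toHomeomorph.symm
  have e4 : (ℝ × ℝ) ≃ₜ (Fin 2 → ℝ) := Homeomorph.finTwoArrow.symm
  have e5 : (Fin 2 → ℝ) ≃ₜ EuclideanSpace ℝ (Fin 2) :=
    (EuclideanSpace.equiv (Fin 2) ℝ).toHomeomorph.symm
  exact ⟨e1.trans (e4.trans e5)⟩

omit [DenselyOrdered Λ] in
theorem NN_conn (D : Dat Λ) [Nonempty Λ] (hloc : LocReal Λ) : ConnectedSpace (NN D) := by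
  have : Nonempty (NN D) := ⟨pl D (0, 0)⟩
  have h : IsPreconnected (univ : Set (NN D)) := by
    apply isPreconnected_of_forall (pl D (0, 0))
    intro z _
    obtain ⟨c, hc⟩ := exists_chart D hloc z
    refine ⟨range c.kap, subset_univ _, ?_, hc, isPreconnected_range c.kap_continuous⟩
    refine ⟨(-Real.exp (-0), FI c.F 0 0), ?_⟩
    have hneg : -Real.exp (-0) < 0 := by simpa using Real.exp_pos (-0)
    rw [c.kap_neg hneg]
    dsimp only
    rw [neg_neg, Real.log_exp, neg_neg, FF_FI]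
  exact { isPreconnected_univ := h, toNonempty := this }

/-- The surface. -/
theorem exists_surface (D : Dat Λ) [Nonempty Λ] (hloc : LocReal Λ) :
    ∃ (X : Type) (_ : TopologicalSpace X), IsHNHManifold 2 X ∧
      ∀ z : X, ∃ f : Λ → NH z, IsEmbedding f := by
  obtain ⟨s0⟩ := (inferInstance : Nonempty Λ)
  have hl := NN_locEuc D hloc
  haveI := NN_conn D hloc
  have hhom := homog hl
  obtain ⟨f0, hf0⟩ := exists_embed D s0
  refine ⟨MZ (NN D), inferInstance, ⟨conn, locEuc hl, hhom, ?_⟩, ?_⟩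
  · intro hT2
    obtain ⟨hne, hsep⟩ := (f0 s0).2
    obtain ⟨U, V, hU, hV, hwU, hzV, hd⟩ := t2_separation hne
    obtain ⟨x, hx1, hx2⟩ := hsep U V hU hV hwU hzV
    exact disjoint_left.1 hd hx1 hx2
  · intro z
    obtain ⟨g, hg⟩ := hhom (io 1 (st D (s0, 0))) z
    subst hg
    refine ⟨fun s => ⟨g (f0 s), NH_map g (f0 s).2⟩, ?_⟩
    exact (g.isEmbedding.comp (IsEmbedding.subtypeVal.comp hf0)).codRestrict _ _

end Pool.Agent.X83.HZ
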