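import Pool.Agent.X83.HZ.Chain
import Pool.Agent.X83.HZ.Sep

open Filter Topology Set

namespace Pool.Agent.X83.HZ

open Pool.Agent.X83.NH

/-- `W × [0,1)` with the lexicographic order. -/
def LR (W : Type) : Type := Lex (W × Ico (0 : ℝ) 1)

noncomputable instance (W : Type) [LinearOrder W] : LinearOrder (LR W) :=
  Prod.Lex.instLinearOrder W (Ico (0 : ℝ) 1)

noncomputable instance (W : Type) [LinearOrder W] : TopologicalSpace (LR W) := Preorder.topology _

instance (W : Type) [LinearOrder W] : OrderTopology (LR W) := ⟨rfl⟩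

/-- The point with coordinates `ξ`, `t`. -/
def pt {W : Type} (ξ : W) (t : ℝ) (h0 : 0 ≤ t) (h1 : t < 1) : LR W := toLex (ξ, ⟨t, h0, h1⟩)

/-- The first coordinate. -/
def fs {W : Type} (s : LR W) : W := (ofLex s).1

/-- The second coordinate. -/
def sn {W : Type} (s : LR W) : ℝ := (ofLex s).2.1

variable {W : Type}

theorem sn_nonneg (s : LR W) : 0 ≤ sn s := (ofLex s).2.2.1

theorem sn_lt (s : LR W) : sn s < 1 := (ofLex s).2.2.2

theorem fs_pt (ξ : W) (t : ℝ) (h0 : 0 ≤ t) (h1 : t < 1) : fs (pt ξ t h0 h1) = ξ := rfl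

theorem sn_pt (ξ : W) (t : ℝ) (h0 : 0 ≤ t) (h1 : t < 1) : sn (pt ξ t h0 h1) = t := rfl

theorem LR_ext {s s' : LR W} (h1 : fs s = fs s') (h2 : sn s = sn s') : s = s' := by
  have h3 : (ofLex s).2 = (ofLex s').2 := Subtype.ext h2
  exact Prod.ext h1 h3

variable [LinearOrder W]

theorem LR_lt {s s' : LR W} : s < s' ↔ fs s < fs s' ∨ (fs s = fs s' ∧ sn s < sn s') :=
  Prod.Lex.toLex_lt_toLex (x := ofLex s) (y := ofLex s')

instance : DenselyOrdered (LR W) where
  dense s s' h := by
    have h1 := sn_lt s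
    have h0 := sn_nonneg s
    rw [LR_lt] at h
    rcases h with h | ⟨h, h'⟩
    · refine ⟨pt (fs s) ((sn s + 1) / 2) (by linarith) (by linarith), ?_, ?_⟩
      · rw [LR_lt]; right; refine ⟨rfl, ?_⟩; rw [sn_pt]; linarith
      · rw [LR_lt]; left; exact h
    · have h1' := sn_lt s'
      refine ⟨pt (fs s) ((sn s + sn s') / 2) (by linarith) (by linarith), ?_, ?_⟩
      · rw [LR_lt]; right; refine ⟨rfl, ?_⟩; rw [sn_pt]; linarith
      · rw [LR_lt]; right; refine ⟨h, ?_⟩; rw [sn_pt]; linarith

instance : NoMaxOrder (LR W) where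
  exists_gt s := by
    have h1 := sn_lt s
    have h0 := sn_nonneg s
    refine ⟨pt (fs s) ((sn s + 1) / 2) (by linarith) (by linarith), ?_⟩
    rw [LR_lt]; right; refine ⟨rfl, ?_⟩; rw [sn_pt]; linarith

section coord

variable [WellFoundedLT W] {w : W → ℝ} (hw : ∀ ξ, 0 ≤ w ξ) (hs : Summable w)

/-- The real coordinate. -/
noncomputable def jj (w : W → ℝ) (s : LR W) : ℝ := SW w (fs s) + sn s * w (fs s)

include hw in
theorem jj_nonneg (s : LR W) : 0 ≤ jj w s :=
  add_nonneg (SW_nonneg hw _) (mul_nonneg (sn_nonneg s) (hw _))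

include hw hs in
theorem jj_lt {α : W} (hα : ∀ ξ, ξ < α → 0 < w ξ) {s s' : LR W} (h : s < s') (h' : fs s' < α) :
    jj w s < jj w s' := by
  unfold jj
  rw [LR_lt] at h
  rcases h with h | ⟨h, h2⟩
  · have h3 := SW_add_le hw hs h
    have h4 : 0 < w (fs s) := hα _ (h.trans h')
    have h5 : sn s * w (fs s) < w (fs s) := by
      have := mul_lt_mul_of_pos_right (sn_lt s) h4
      linarith
    have h6 : 0 ≤ sn s' * w (fs s') := mul_nonneg (sn_nonneg s') (hw _)
    linarith
  · rw [h]
    have h4 : 0 < w (fs s') := hα _ h'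
    have := mul_lt_mul_of_pos_right h2 h4
    linarith

end coord

theorem fs_mono {s s' : LR W} (h : s ≤ s') : fs s ≤ fs s' := by
  rcases h.eq_or_lt with rfl | h
  · exact le_rfl
  · rw [LR_lt] at h
    rcases h with h | h
    · exact h.le
    · exact h.1.le

/-- Local real coordinates. -/
theorem exists_param [WellFoundedLT W] [NoMaxOrder W] (hW : ∀ a : W, (Iio a).Countable)
    (a b : LR W) (hab : a < b) :
    ∃ e : ℝ → LR W, StrictMono e ∧ range e = Ioo a b := by
  obtain ⟨α, hα⟩ := exists_gt (fs b)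
  obtain ⟨w, hw, hwα, hs⟩ := exists_weights hW α
  have hmono : ∀ s s' : LR W, s < s' → s' ≤ b → jj w s < jj w s' := fun s s' h h' =>
    jj_lt hw hs hwα h ((fs_mono h').trans_lt hα)
  -- the inverse
  have hinv : ∀ y : ℝ, jj w a < y → y < jj w b → ∃ s, a < s ∧ s < b ∧ jj w s = y := by
    intro y hy1 hy2
    have hy0 : 0 ≤ y := (jj_nonneg hw a).trans hy1.le
    have hyα : y < SW w α := by
      have h1 := SW_add_le hw hs hα
      have h2 : sn b * w (fs b) ≤ w (fs b) := by
        have := mul_le_mul_of_nonneg_right (sn_lt b).le (hw (fs b))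
        linarith
      unfold jj at hy2
      linarith
    obtain ⟨m, hm, h1, h2⟩ := exists_level hw hs hy0 hyα
    have hwm : 0 < w m := hwα m hm
    have e : jj w (pt m ((y - SW w m) / w m) (div_nonneg (by linarith) hwm.le)
        (by rw [div_lt_one hwm]; linarith)) = y := by
      unfold jj
      rw [fs_pt, sn_pt, div_mul_cancel₀ _ hwm.ne']; ring
    set s := pt m ((y - SW w m) / w m) (div_nonneg (by linarith) hwm.le)
        (by rw [div_lt_one hwm]; linarith) with hsdef
    have hfs : fs s < α := hm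
    refine ⟨s, ?_, ?_, e⟩
    · by_contra hcon
      push Not at hcon
      rcases hcon.eq_or_lt with h | h
      · rw [h] at e; linarith
      · have := hmono s a h hab.le
        linarith
    · by_contra hcon
      push Not at hcon
      rcases hcon.eq_or_lt with h | h
      · rw [← h] at e; linarith
      · have := jj_lt hw hs hwα h hfs
        linarith
  have hjab : jj w a < jj w b := hmono a b hab le_rfl
  let σ := orderIsoIooNegOneOne ℝ
  let Y : ℝ → ℝ := fun v => jj w a + (jj w b - jj w a) * ((1 + (σ v : ℝ)) / 2)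
  have hY1 : ∀ v, jj w a < Y v := by
    intro v
    have h1 := (σ v).2.1
    have : 0 < (jj w b - jj w a) * ((1 + (σ v : ℝ)) / 2) :=
      mul_pos (by linarith) (by linarith)
    show _ < jj w a + _
    linarith
  have hY2 : ∀ v, Y v < jj w b := by
    intro v
    have h1 := (σ v).2.2
    have : (jj w b - jj w a) * ((1 + (σ v : ℝ)) / 2) < (jj w b - jj w a) * 1 :=
      mul_lt_mul_of_pos_left (by linarith) (by linarith)
    show jj w a + _ < _
    linarith
  choose inv hinv1 hinv2 hinv3 using fun v => hinv (Y v) (hY1 v) (hY2 v)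
  refine ⟨inv, ?_, ?_⟩
  · intro v v' hv
    have hYv : Y v < Y v' := by
      have h1 : (σ v : ℝ) < σ v' := σ.strictMono hv
      have : (jj w b - jj w a) * ((1 + (σ v : ℝ)) / 2)
          < (jj w b - jj w a) * ((1 + (σ v' : ℝ)) / 2) :=
        mul_lt_mul_of_pos_left (by linarith) (by linarith)
      show jj w a + _ < jj w a + _
      linarith
    by_contra hcon
    push Not at hcon
    rcases hcon.eq_or_lt with h | h
    · have := hinv3 v'
      rw [h, hinv3 v] at this
      linarith
    · have := hmono _ _ h (hinv2 v).le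
      rw [hinv3, hinv3] at this
      linarith
  · ext s
    constructor
    · rintro ⟨v, rfl⟩
      exact ⟨hinv1 v, hinv2 v⟩
    · rintro ⟨h1, h2⟩
      have k1 := hmono a s h1 h2.le
      have k2 := hmono s b h2 le_rfl
      have hd : 0 < jj w b - jj w a := by linarith
      have hx : 2 * ((jj w s - jj w a) / (jj w b - jj w a)) - 1 ∈ Ioo (-1 : ℝ) 1 := by
        have h3 : 0 < (jj w s - jj w a) / (jj w b - jj w a) := div_pos (by linarith) hd
        have h4 : (jj w s - jj w a) / (jj w b - jj w a) < 1 := by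
          rw [div_lt_one hd]; linarith
        constructor <;> linarith
      refine ⟨σ.symm ⟨_, hx⟩, ?_⟩
      have hY : Y (σ.symm ⟨_, hx⟩) = jj w s := by
        show jj w a + (jj w b - jj w a) * ((1 + ((σ (σ.symm ⟨_, hx⟩) : Ioo (-1 : ℝ) 1) : ℝ)) / 2) = _
        rw [σ.apply_symm_apply]
        field_simp
        ring
      have h5 := hinv3 (σ.symm ⟨_, hx⟩)
      rw [hY] at h5
      rcases lt_trichotomy (inv (σ.symm ⟨_, hx⟩)) s with h | h | h
      · have := hmono _ _ h h2.le
        linarith
      · exact h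
      · have := hmono _ _ h (hinv2 _).le
        linarith

end Pool.Agent.X83.HZ
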