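import Pool.Agent.X83.HZ.Mix
import Pool.Agent.X83.NH.Defs

open Filter Topology Set NNReal

namespace Pool.Agent.X83.HZ

open Pool.Agent.X83.NH

/-- A family of bounded functions, strictly increasing at infinity. -/
structure Dat (Λ : Type) [LinearOrder Λ] where
  G : Λ → ℤ → ℝ
  hG : ∀ s s' : Λ, s < s' → ∀ᶠ k in atTop, G s k < G s' k
  hb : ∀ s k, |G s k| ≤ 1

section

variable {Λ : Type} [LinearOrder Λ]

/-- The points of the surface: a plane, and a strip over `Λ`. -/
def NN (_ : Dat Λ) : Type := (ℝ × ℝ) ⊕ (Λ × ℝ≥0)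

variable {D : Dat Λ}

/-- The points of the plane. -/
def pl (D : Dat Λ) (p : ℝ × ℝ) : NN D := Sum.inl p

/-- The points of the strip. -/
def st (D : Dat Λ) (p : Λ × ℝ≥0) : NN D := Sum.inr p

theorem pl_injective : Function.Injective (pl D) := Sum.inl_injective

theorem st_injective : Function.Injective (st D) := Sum.inr_injective

theorem pl_ne_st (p : ℝ × ℝ) (q : Λ × ℝ≥0) : pl D p ≠ st D q := Sum.inl_ne_inr

theorem NN_cases (z : NN D) : (∃ p, z = pl D p) ∨ (∃ q, z = st D q) := by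
  cases z with
  | inl p => exact Or.inl ⟨p, rfl⟩
  | inr q => exact Or.inr ⟨q, rfl⟩

theorem le_ev (D : Dat Λ) {s s' : Λ} (h : s ≤ s') :
    ∀ᶠ ρ in atTop, mix (D.G s) ρ ≤ mix (D.G s') ρ := by
  rcases h.eq_or_lt with rfl | h
  · exact Eventually.of_forall fun _ => le_rfl
  · exact (mix_eventually_lt (D.hG _ _ h)).mono fun _ => le_of_lt

variable [TopologicalSpace Λ] [NoMinOrder Λ] [NoMaxOrder Λ]

instance instTopNN : TopologicalSpace (NN D) where
  IsOpen U := IsOpen (pl D ⁻¹' U) ∧ IsOpen (st D ⁻¹' U) ∧ ∀ s, st D (s, 0) ∈ U →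
    ∃ a b, a < s ∧ s < b ∧ ∀ᶠ ρ in atTop, ∀ y, mix (D.G a) ρ < y → y < mix (D.G b) ρ →
      pl D (ρ, y) ∈ U
  isOpen_univ := by
    refine ⟨isOpen_univ, isOpen_univ, fun s _ => ?_⟩
    obtain ⟨a, ha⟩ := exists_lt s
    obtain ⟨b, hb⟩ := exists_gt s
    exact ⟨a, b, ha, hb, Eventually.of_forall fun _ _ _ _ => trivial⟩
  isOpen_inter := by
    rintro U V ⟨hU1, hU2, hU3⟩ ⟨hV1, hV2, hV3⟩
    refine ⟨hU1.inter hV1, hU2.inter hV2, fun s hs => ?_⟩
    obtain ⟨a1, b1, ha1, hb1, h1⟩ := hU3 s hs.1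
    obtain ⟨a2, b2, ha2, hb2, h2⟩ := hV3 s hs.2
    refine ⟨max a1 a2, min b1 b2, max_lt ha1 ha2, lt_min hb1 hb2, ?_⟩
    filter_upwards [h1, h2, le_ev D (le_max_left a1 a2), le_ev D (le_max_right a1 a2),
      le_ev D (min_le_left b1 b2), le_ev D (min_le_right b1 b2)] with ρ k1 k2 k3 k4 k5 k6 y hy1 hy2
    exact ⟨k1 y (k3.trans_lt hy1) (hy2.trans_le k5), k2 y (k4.trans_lt hy1) (hy2.trans_le k6)⟩
  isOpen_sUnion := by
    intro S hS
    refine ⟨?_, ?_, ?_⟩
    · rw [preimage_sUnion]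
      exact isOpen_biUnion fun U hU => (hS U hU).1
    · rw [preimage_sUnion]
      exact isOpen_biUnion fun U hU => (hS U hU).2.1
    · rintro s ⟨U, hU, hs⟩
      obtain ⟨a, b, ha, hb, h⟩ := (hS U hU).2.2 s hs
      exact ⟨a, b, ha, hb, h.mono fun ρ h y h1 h2 => ⟨U, hU, h y h1 h2⟩⟩

theorem isOpen_NN {U : Set (NN D)} : IsOpen U ↔
    IsOpen (pl D ⁻¹' U) ∧ IsOpen (st D ⁻¹' U) ∧ ∀ s, st D (s, 0) ∈ U →
    ∃ a b, a < s ∧ s < b ∧ ∀ᶠ ρ in atTop, ∀ y, mix (D.G a) ρ < y → y < mix (D.G b) ρ →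
      pl D (ρ, y) ∈ U := Iff.rfl

theorem pl_isOpenEmbedding : IsOpenEmbedding (pl D) := by
  refine IsOpenEmbedding.of_continuous_injective_isOpenMap ?_ pl_injective ?_
  · rw [continuous_def]
    intro U hU
    exact (isOpen_NN.1 hU).1
  · intro U hU
    rw [isOpen_NN]
    refine ⟨?_, ?_, ?_⟩
    · rwa [preimage_image_eq U pl_injective]
    · have : st D ⁻¹' (pl D '' U) = ∅ := by
        ext q
        simp only [mem_preimage, mem_image, mem_empty_iff_false, iff_false]
        rintro ⟨p, _, hp⟩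
        exact pl_ne_st p q hp
      rw [this]; exact isOpen_empty
    · rintro s ⟨p, _, hp⟩
      exact absurd hp (pl_ne_st p _)

theorem st_continuous : Continuous (st D) := by
  rw [continuous_def]
  intro U hU
  exact (isOpen_NN.1 hU).2.1

/-- The part of the surface above `a`. -/
def up (D : Dat Λ) (a : Λ) : Set (NN D) :=
  pl D '' {p | mix (D.G a) p.1 < p.2} ∪ st D '' {q | a < q.1}

/-- The part of the surface below `b`. -/
def dn (D : Dat Λ) (b : Λ) : Set (NN D) :=
  pl D '' {p | p.2 < mix (D.G b) p.1} ∪ st D '' {q | q.1 < b}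

omit [TopologicalSpace Λ] [NoMinOrder Λ] [NoMaxOrder Λ] in
theorem st_mem_up {a : Λ} {q : Λ × ℝ≥0} : st D q ∈ up D a ↔ a < q.1 := by
  constructor
  · rintro (⟨p, _, hp⟩ | ⟨q', hq', h⟩)
    · exact absurd hp (pl_ne_st _ _)
    · rw [st_injective h] at hq'; exact hq'
  · intro h; exact Or.inr ⟨q, h, rfl⟩

omit [TopologicalSpace Λ] [NoMinOrder Λ] [NoMaxOrder Λ] in
theorem st_mem_dn {a : Λ} {q : Λ × ℝ≥0} : st D q ∈ dn D a ↔ q.1 < a := by
  constructor
  · rintro (⟨p, _, hp⟩ | ⟨q', hq', h⟩)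
    · exact absurd hp (pl_ne_st _ _)
    · rw [st_injective h] at hq'; exact hq'
  · intro h; exact Or.inr ⟨q, h, rfl⟩

omit [TopologicalSpace Λ] [NoMinOrder Λ] [NoMaxOrder Λ] in
theorem pl_mem_up {a : Λ} {p : ℝ × ℝ} : pl D p ∈ up D a ↔ mix (D.G a) p.1 < p.2 := by
  constructor
  · rintro (⟨p', hp', h⟩ | ⟨q, _, hq⟩)
    · rw [pl_injective h] at hp'; exact hp'
    · exact absurd hq.symm (pl_ne_st _ _)
  · intro h; exact Or.inl ⟨p, h, rfl⟩

omit [TopologicalSpace Λ] [NoMinOrder Λ] [NoMaxOrder Λ] in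
theorem pl_mem_dn {a : Λ} {p : ℝ × ℝ} : pl D p ∈ dn D a ↔ p.2 < mix (D.G a) p.1 := by
  constructor
  · rintro (⟨p', hp', h⟩ | ⟨q, _, hq⟩)
    · rw [pl_injective h] at hp'; exact hp'
    · exact absurd hq.symm (pl_ne_st _ _)
  · intro h; exact Or.inl ⟨p, h, rfl⟩

variable [OrderTopology Λ]

theorem up_open (a : Λ) : IsOpen (up D a) := by
  rw [isOpen_NN]
  refine ⟨?_, ?_, ?_⟩
  · have : pl D ⁻¹' up D a = {p | mix (D.G a) p.1 < p.2} := by
      ext p; exact pl_mem_up
    rw [this]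
    exact isOpen_lt ((mix_continuous _).comp continuous_fst) continuous_snd
  · have : st D ⁻¹' up D a = {q | a < q.1} := by
      ext p; exact st_mem_up
    rw [this]
    exact isOpen_lt continuous_const continuous_fst
  · intro s hs
    rw [st_mem_up] at hs
    obtain ⟨b, hb⟩ := exists_gt s
    exact ⟨a, b, hs, hb, Eventually.of_forall fun ρ y h1 _ => pl_mem_up.2 h1⟩

theorem dn_open (b : Λ) : IsOpen (dn D b) := by
  rw [isOpen_NN]
  refine ⟨?_, ?_, ?_⟩
  · have : pl D ⁻¹' dn D b = {p | p.2 < mix (D.G b) p.1} := by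
      ext p; exact pl_mem_dn
    rw [this]
    exact isOpen_lt continuous_snd ((mix_continuous _).comp continuous_fst)
  · have : st D ⁻¹' dn D b = {q | q.1 < b} := by
      ext p; exact st_mem_dn
    rw [this]
    exact isOpen_lt continuous_fst continuous_const
  · intro s hs
    rw [st_mem_dn] at hs
    obtain ⟨a, ha⟩ := exists_lt s
    exact ⟨a, b, ha, hs, Eventually.of_forall fun ρ y _ h2 => pl_mem_dn.2 h2⟩

/-- The boundary line is embedded. -/
theorem bd_isEmbedding : IsEmbedding fun s : Λ => st D (s, 0) := by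
  refine ⟨⟨?_⟩, fun s s' h => congrArg Prod.fst (st_injective h)⟩
  apply le_antisymm
  · have h : Continuous fun s : Λ => st D (s, 0) :=
      st_continuous.comp (continuous_id.prodMk continuous_const)
    exact h.le_induced
  · refine le_of_le_of_eq ?_ (OrderTopology.topology_eq_generate_intervals (α := Λ)).symm
    apply le_generateFrom
    rintro U ⟨a, rfl | rfl⟩
    · refine ⟨up D a, up_open a, ?_⟩
      ext s
      exact st_mem_up
    · refine ⟨dn D a, dn_open a, ?_⟩
      ext s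
      exact st_mem_dn

/-- The data of a chart. -/
structure Cht (D : Dat Λ) where
  e : ℝ → Λ
  he : StrictMono e
  a : Λ
  b : Λ
  hr : range e = Ioo a b
  F : ℤ → ℝ ≃o ℝ
  hF : ∀ q : ℚ, ∀ᶠ k in atTop, F k q = D.G (e q) k

theorem Cht.e_emb (c : Cht D) : IsOpenEmbedding c.e := by
  have h1 : IsEmbedding c.e := c.he.isEmbedding_of_ordConnected (by rw [c.hr]; exact ordConnected_Ioo)
  exact ⟨h1, by rw [c.hr]; exact isOpen_Ioo⟩

/-- The chart map. -/
noncomputable def Cht.kap (c : Cht D) (p : ℝ × ℝ) : NN D :=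
  if p.1 < 0 then pl D (-Real.log (-p.1), FF c.F (-Real.log (-p.1)) p.2)
  else st D (c.e p.2, p.1.toNNReal)

theorem Cht.kap_neg (c : Cht D) {p : ℝ × ℝ} (h : p.1 < 0) :
    c.kap p = pl D (-Real.log (-p.1), FF c.F (-Real.log (-p.1)) p.2) := if_pos h

theorem Cht.kap_nonneg (c : Cht D) {p : ℝ × ℝ} (h : 0 ≤ p.1) :
    c.kap p = st D (c.e p.2, p.1.toNNReal) := if_neg (not_lt.2 h)

theorem Cht.kap_injective (c : Cht D) : Function.Injective c.kap := by
  rintro ⟨h, v⟩ ⟨h', v'⟩ heq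
  rcases lt_or_ge h 0 with hh | hh
  · rcases lt_or_ge h' 0 with hh' | hh'
    · rw [c.kap_neg hh, c.kap_neg hh'] at heq
      have h1 := pl_injective heq
      rw [Prod.mk.injEq] at h1
      obtain ⟨h2, h3⟩ := h1
      dsimp only at h2 h3
      have h4 : -h = -h' := by
        apply Real.log_injOn_pos (mem_Ioi.2 (by linarith)) (mem_Ioi.2 (by linarith))
        linarith
      have h5 : h = h' := by linarith
      subst h5
      have h6 := (FF_strictMono c.F _).injective h3
      rw [h6]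
    · rw [c.kap_neg hh, c.kap_nonneg hh'] at heq
      exact absurd heq (pl_ne_st _ _)
  · rcases lt_or_ge h' 0 with hh' | hh'
    · rw [c.kap_nonneg hh, c.kap_neg hh'] at heq
      exact absurd heq.symm (pl_ne_st _ _)
    · rw [c.kap_nonneg hh, c.kap_nonneg hh'] at heq
      have h1 := st_injective heq
      rw [Prod.mk.injEq] at h1
      obtain ⟨h2, h3⟩ := h1
      dsimp only at h2 h3
      have h4 := c.he.injective h2
      have h5 : h = h' := by
        have := congrArg (fun x : ℝ≥0 => (x : ℝ)) h3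
        rwa [Real.coe_toNNReal h hh, Real.coe_toNNReal h' hh'] at this
      rw [h4, h5]

/-- Near the boundary, the chart respects the reference functions. -/
theorem Cht.ev (c : Cht D) (q : ℚ) :
    ∀ᶠ ρ in atTop, FF c.F ρ q = mix (D.G (c.e q)) ρ := mix_eventually_eq (c.hF q)

theorem log_ev {P : ℝ → Prop} (h : ∀ᶠ ρ in atTop, P ρ) :
    ∀ᶠ x : ℝ in 𝓝 0, x < 0 → P (-Real.log (-x)) := by
  obtain ⟨K, hK⟩ := eventually_atTop.1 h
  filter_upwards [lt_mem_nhds (show -Real.exp (-K) < 0 by simpa using Real.exp_pos (-K))] with x hx h0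
  apply hK
  have h1 : 0 < -x := by linarith
  have h2 : Real.log (-x) ≤ -K := by
    rw [Real.log_le_iff_le_exp h1]; linarith
  linarith

theorem Cht.kap_continuous (c : Cht D) : Continuous c.kap := by
  rw [continuous_def]
  intro U hU
  rw [isOpen_iff_mem_nhds]
  rintro ⟨h0, v0⟩ hp
  rw [mem_preimage] at hp
  obtain ⟨hU1, hU2, hU3⟩ := isOpen_NN.1 hU
  rcases lt_trichotomy h0 0 with hh | hh | hh
  · rw [c.kap_neg hh] at hp
    have hc : ContinuousAt (fun p : ℝ × ℝ => (-Real.log (-p.1), FF c.F (-Real.log (-p.1)) p.2))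
        (h0, v0) := by
      have c1 : ContinuousAt (fun p : ℝ × ℝ => -Real.log (-p.1)) (h0, v0) :=
        (ContinuousAt.log (continuous_fst.neg).continuousAt (show -h0 ≠ 0 by
          have : 0 < -h0 := by linarith
          exact this.ne')).neg
      have c2 : ContinuousAt (fun p : ℝ × ℝ => (-Real.log (-p.1), p.2)) (h0, v0) :=
        c1.prodMk continuous_snd.continuousAt
      exact c1.prodMk (ContinuousAt.comp (g := fun p : ℝ × ℝ => FF c.F p.1 p.2)
        (f := fun p : ℝ × ℝ => (-Real.log (-p.1), p.2)) (FF_continuous c.F).continuousAt c2)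
    have h1 := hc.eventually_mem (hU1.mem_nhds hp)
    have h2 : ∀ᶠ p : ℝ × ℝ in 𝓝 (h0, v0), p.1 < 0 :=
      continuous_fst.continuousAt.eventually_lt continuousAt_const hh
    filter_upwards [h1, h2] with p k1 k2
    rw [mem_preimage, c.kap_neg k2]; exact k1
  · subst hh
    rw [c.kap_nonneg le_rfl] at hp
    dsimp only at hp
    rw [Real.toNNReal_zero] at hp
    have hec : Continuous c.e := c.e_emb.continuous
    -- the nonnegative side
    have hA : ∀ᶠ p : ℝ × ℝ in 𝓝 ((0 : ℝ), v0), (c.e p.2, p.1.toNNReal) ∈ st D ⁻¹' U := by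
      have hc : Continuous fun p : ℝ × ℝ => (c.e p.2, p.1.toNNReal) :=
        (hec.comp continuous_snd).prodMk (continuous_real_toNNReal.comp continuous_fst)
      apply hc.continuousAt.eventually_mem
      apply hU2.mem_nhds
      dsimp only
      rw [Real.toNNReal_zero]; exact hp
    -- the negative side
    obtain ⟨a, b, ha, hb, hev⟩ := hU3 _ hp
    have hn : ∀ᶠ v in 𝓝 v0, a < c.e v ∧ c.e v < b :=
      (hec.continuousAt.eventually_const_lt ha).and (hec.continuousAt.eventually_lt_const hb)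
    obtain ⟨ε, hε, hball⟩ := Metric.eventually_nhds_iff.1 hn
    obtain ⟨q1, hq1, hq1'⟩ := exists_rat_btwn (show v0 - ε < v0 by linarith)
    obtain ⟨q2, hq2, hq2'⟩ := exists_rat_btwn (show v0 < v0 + ε by linarith)
    have hq1a : a < c.e q1 := (hball (by rw [Real.dist_eq, abs_lt]; constructor <;> linarith)).1
    have hq2b : c.e q2 < b := (hball (by rw [Real.dist_eq, abs_lt]; constructor <;> linarith)).2
    have h3 : ∀ᶠ ρ in atTop, ∀ v, (q1 : ℝ) < v → v < q2 → pl D (ρ, FF c.F ρ v) ∈ U := by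
      filter_upwards [hev, c.ev q1, c.ev q2, mix_eventually_lt (D.hG _ _ hq1a),
        mix_eventually_lt (D.hG _ _ hq2b)] with ρ k1 k2 k3 k4 k5 v hv1 hv2
      apply k1
      · calc mix (D.G a) ρ < mix (D.G (c.e q1)) ρ := k4
          _ = FF c.F ρ q1 := k2.symm
          _ < _ := FF_strictMono c.F ρ hv1
      · calc FF c.F ρ v < FF c.F ρ q2 := FF_strictMono c.F ρ hv2
          _ = mix (D.G (c.e q2)) ρ := k3
          _ < _ := k5
    have h4 := log_ev h3
    have h5 : ∀ᶠ p : ℝ × ℝ in 𝓝 ((0 : ℝ), v0), p.1 < 0 → ∀ v, (q1 : ℝ) < v → v < q2 →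
        pl D (-Real.log (-p.1), FF c.F (-Real.log (-p.1)) v) ∈ U :=
      (continuous_fst.tendsto ((0 : ℝ), v0)).eventually h4
    have t6 : Tendsto (fun p : ℝ × ℝ => p.2) (𝓝 ((0 : ℝ), v0)) (𝓝 v0) :=
      continuous_snd.tendsto _
    have h6 : ∀ᶠ p : ℝ × ℝ in 𝓝 ((0 : ℝ), v0), (q1 : ℝ) < p.2 ∧ p.2 < q2 :=
      (t6.eventually_const_lt hq1').and (t6.eventually_lt_const hq2)
    filter_upwards [hA, h5, h6] with p k1 k2 k3
    rcases lt_or_ge p.1 0 with hp0 | hp0
    · rw [mem_preimage, c.kap_neg hp0]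
      exact k2 hp0 p.2 k3.1 k3.2
    · rw [mem_preimage, c.kap_nonneg hp0]
      exact k1
  · rw [c.kap_nonneg hh.le] at hp
    have hc : Continuous fun p : ℝ × ℝ => (c.e p.2, p.1.toNNReal) :=
      (c.e_emb.continuous.comp continuous_snd).prodMk
        (continuous_real_toNNReal.comp continuous_fst)
    have h1 := hc.continuousAt.eventually_mem (x := (h0, v0)) (hU2.mem_nhds hp)
    have h2 : ∀ᶠ p : ℝ × ℝ in 𝓝 (h0, v0), 0 < p.1 :=
      continuousAt_const.eventually_lt continuous_fst.continuousAt hh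
    filter_upwards [h1, h2] with p k1 k2
    rw [mem_preimage, c.kap_nonneg k2.le]; exact k1

theorem Cht.kap_isOpenMap (c : Cht D) : IsOpenMap c.kap := by
  intro V hV
  rw [isOpen_NN]
  refine ⟨?_, ?_, ?_⟩
  · have e : pl D ⁻¹' (c.kap '' V) =
        (fun p : ℝ × ℝ => (-Real.exp (-p.1), FI c.F p.1 p.2)) ⁻¹' V := by
      ext ⟨ρ, y⟩
      constructor
      · rintro ⟨⟨h, v⟩, hv, heq⟩
        rcases lt_or_ge h 0 with hh | hh
        · rw [c.kap_neg hh] at heq
          have h1 := pl_injective heq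
          rw [Prod.mk.injEq] at h1
          obtain ⟨h2, h3⟩ := h1
          dsimp only at h2 h3
          rw [mem_preimage]
          dsimp only
          rw [h2] at h3
          have h4 : -Real.exp (-ρ) = h := by
            rw [← h2, neg_neg, Real.exp_log (by linarith), neg_neg]
          rw [h4, ← h3, FI_FF]; exact hv
        · rw [c.kap_nonneg hh] at heq
          exact absurd heq.symm (pl_ne_st _ _)
      · intro hp
        refine ⟨_, hp, ?_⟩
        have hneg : -Real.exp (-ρ) < 0 := by simpa using Real.exp_pos (-ρ)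
        rw [c.kap_neg hneg]
        dsimp only
        rw [neg_neg, Real.log_exp, neg_neg, FF_FI]
    rw [e]
    apply hV.preimage
    exact ((Real.continuous_exp.comp continuous_fst.neg).neg).prodMk (FI_continuous c.F)
  · have e : st D ⁻¹' (c.kap '' V) =
        (Prod.map c.e id) '' {p : ℝ × ℝ≥0 | ((p.2 : ℝ), p.1) ∈ V} := by
      ext ⟨s, r⟩
      constructor
      · rintro ⟨⟨h, v⟩, hv, heq⟩
        rcases lt_or_ge h 0 with hh | hh
        · rw [c.kap_neg hh] at heq
          exact absurd heq (pl_ne_st _ _)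
        · rw [c.kap_nonneg hh] at heq
          have h1 := st_injective heq
          refine ⟨(v, h.toNNReal), ?_, h1⟩
          show (((h.toNNReal : ℝ≥0) : ℝ), v) ∈ V
          rw [Real.coe_toNNReal h hh]; exact hv
      · rintro ⟨⟨v, r'⟩, hv, heq⟩
        refine ⟨((r' : ℝ), v), hv, ?_⟩
        rw [c.kap_nonneg r'.2, ← heq]
        dsimp only
        rw [Real.toNNReal_coe]; rfl
    rw [e]
    apply (c.e_emb.isOpenMap.prodMap IsOpenMap.id)
    exact hV.preimage ((NNReal.continuous_coe.comp continuous_snd).prodMk continuous_fst)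
  · rintro s ⟨⟨h, v⟩, hv, heq⟩
    rcases lt_or_ge h 0 with hh | hh
    · rw [c.kap_neg hh] at heq
      exact absurd heq (pl_ne_st _ _)
    rw [c.kap_nonneg hh] at heq
    have h1 := st_injective heq
    rw [Prod.mk.injEq] at h1
    obtain ⟨h2, h3⟩ := h1
    dsimp only at h2 h3
    have h4 : h = 0 := by
      rw [Real.toNNReal_eq_zero] at h3
      linarith
    subst h4
    obtain ⟨ε, hε, hball⟩ := Metric.isOpen_iff.1 hV _ hv
    obtain ⟨q1, hq1, hq1'⟩ := exists_rat_btwn (show v - ε < v by linarith)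
    obtain ⟨q2, hq2, hq2'⟩ := exists_rat_btwn (show v < v + ε by linarith)
    refine ⟨c.e q1, c.e q2, by rw [← h2]; exact c.he hq1', by rw [← h2]; exact c.he hq2, ?_⟩
    have hexp : ∀ᶠ ρ : ℝ in atTop, Real.exp (-ρ) < ε := by
      have : Tendsto (fun ρ : ℝ => Real.exp (-ρ)) atTop (𝓝 0) :=
        Real.tendsto_exp_neg_atTop_nhds_zero
      exact this.eventually_lt_const hε
    filter_upwards [c.ev q1, c.ev q2, hexp] with ρ k1 k2 k3 y hy1 hy2
    rw [← k1] at hy1
    rw [← k2] at hy2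
    have hneg : -Real.exp (-ρ) < 0 := by simpa using Real.exp_pos (-ρ)
    refine ⟨(-Real.exp (-ρ), FI c.F ρ y), ?_, ?_⟩
    · apply hball
      rw [Metric.mem_ball, Prod.dist_eq, max_lt_iff]
      have h5 := (lt_FI_iff c.F).2 hy1
      have h6 := (FI_lt_iff c.F).2 hy2
      dsimp only
      rw [Real.dist_eq, Real.dist_eq, sub_zero, abs_neg, abs_of_pos (Real.exp_pos _)]
      refine ⟨k3, ?_⟩
      rw [abs_lt]
      constructor <;> linarith
    · rw [c.kap_neg hneg]
      dsimp only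
      rw [neg_neg, Real.log_exp, neg_neg, FF_FI]

theorem Cht.kap_isOpenEmbedding (c : Cht D) : IsOpenEmbedding c.kap :=
  IsOpenEmbedding.of_continuous_injective_isOpenMap c.kap_continuous c.kap_injective
    c.kap_isOpenMap

/-- Existence of charts from local coordinates on `Λ`. -/
theorem exists_cht (D : Dat Λ) (e : ℝ → Λ) (he : StrictMono e) (a b : Λ) (hr : range e = Ioo a b) :
    ∃ c : Cht D, c.e = e := by
  obtain ⟨F, hF⟩ := exists_iso_seq (fun q k => D.G (e q) k)
    (fun p q hpq => D.hG _ _ (he (by exact_mod_cast hpq)))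
  exact ⟨⟨e, he, a, b, hr, F, hF⟩, rfl⟩

end

end Pool.Agent.X83.HZ
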